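import Mathlib

/-! Tests arranged in levels change rarely along a chain: abstract form. -/

set_option autoImplicit false

namespace Pool.Agent.W2helper22.AL

open Finset

section

variable {X τ : Type} {T : Finset τ} {pr : X → τ → Prop} {lev : τ → ℕ} {R : X → X → Prop}

open Classical in
/-- the number of tests of level `l` with answer yes -/
noncomputable def acnt (T : Finset τ) (pr : X → τ → Prop) (lev : τ → ℕ) (x : X) (l : ℕ) : ℕ :=
  ((T.filter (fun i => lev i = l)).filter (fun i => pr x i)).card

/-- the rank -/
noncomputable def ark (T : Finset τ) (pr : X → τ → Prop) (lev : τ → ℕ) (x : X) : ℕ → ℕ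
  | 0 => 0
  | m + 1 => ark T pr lev x m * ((T.filter (fun i => lev i = m)).card + 1) + acnt T pr lev x m

lemma acnt_le (x : X) (l : ℕ) : acnt T pr lev x l ≤ (T.filter (fun i => lev i = l)).card := by
  classical
  unfold acnt
  convert Finset.card_filter_le _ _

lemma ark_lt (x : X) : ∀ m, ark T pr lev x m < ∏ l ∈ range m, ((T.filter (fun i => lev i = l)).card + 1) := by
  intro m
  induction m with
  | zero => simp [ark]
  | succ m ih =>
    rw [Finset.prod_range_succ]
    show ark T pr lev x m * ((T.filter (fun i => lev i = m)).card + 1) + acnt T pr lev x m < _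
    have h1 := acnt_le (T := T) (pr := pr) (lev := lev) x m
    calc ark T pr lev x m * ((T.filter (fun i => lev i = m)).card + 1) + acnt T pr lev x m
        < ark T pr lev x m * ((T.filter (fun i => lev i = m)).card + 1) +
          ((T.filter (fun i => lev i = m)).card + 1) := by omega
      _ = (ark T pr lev x m + 1) * ((T.filter (fun i => lev i = m)).card + 1) := by ring
      _ ≤ _ := Nat.mul_le_mul_right _ ih

lemma ark_mono (hM : ∀ x y, R x y → ∀ l, (∀ i ∈ T, lev i < l → (pr x i ↔ pr y i)) →
      ∀ i ∈ T, lev i = l → pr x i → pr y i)
    {x y : X} (hxy : R x y) : ∀ m, ark T pr lev x m < ark T pr lev y m ∨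
      (ark T pr lev x m = ark T pr lev y m ∧ ∀ i ∈ T, lev i < m → (pr x i ↔ pr y i)) := by
  classical
  intro m
  induction m with
  | zero => exact Or.inr ⟨rfl, fun i _ h => absurd h (Nat.not_lt_zero _)⟩
  | succ m ih =>
    show ark T pr lev x m * ((T.filter (fun i => lev i = m)).card + 1) + acnt T pr lev x m <
        ark T pr lev y m * ((T.filter (fun i => lev i = m)).card + 1) + acnt T pr lev y m ∨
      (ark T pr lev x m * ((T.filter (fun i => lev i = m)).card + 1) + acnt T pr lev x m =
        ark T pr lev y m * ((T.filter (fun i => lev i = m)).card + 1) + acnt T pr lev y m ∧ _)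
    rcases ih with h | ⟨h, hsame⟩
    · left
      have h1 := acnt_le (T := T) (pr := pr) (lev := lev) x m
      have h2 : (ark T pr lev x m + 1) * ((T.filter (fun i => lev i = m)).card + 1) ≤
          ark T pr lev y m * ((T.filter (fun i => lev i = m)).card + 1) := Nat.mul_le_mul_right _ h
      have h3 : (ark T pr lev x m + 1) * ((T.filter (fun i => lev i = m)).card + 1) =
          ark T pr lev x m * ((T.filter (fun i => lev i = m)).card + 1) +
            ((T.filter (fun i => lev i = m)).card + 1) := by ring
      omega
    · have hsub : ((T.filter (fun i => lev i = m)).filter (fun i => pr x i)) ⊆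
          ((T.filter (fun i => lev i = m)).filter (fun i => pr y i)) := by
        intro i hi
        rw [Finset.mem_filter] at hi ⊢
        have h1 := Finset.mem_filter.mp hi.1
        exact ⟨hi.1, hM x y hxy m hsame i h1.1 h1.2 hi.2⟩
      have hc : acnt T pr lev x m ≤ acnt T pr lev y m := by
        unfold acnt
        convert Finset.card_le_card hsub
      rcases hc.lt_or_eq with hlt | heq
      · left
        rw [h]
        omega
      · right
        refine ⟨by rw [h, heq], fun i hi hl => ?_⟩
        rcases Nat.lt_succ_iff_lt_or_eq.mp hl with h1 | h1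
        · exact hsame i hi h1
        · have h3 : ((T.filter (fun i => lev i = m)).filter (fun i => pr x i)) =
              ((T.filter (fun i => lev i = m)).filter (fun i => pr y i)) := by
            apply Finset.eq_of_subset_of_card_le hsub
            unfold acnt at heq
            convert heq.ge
          have hi' : i ∈ T.filter (fun i => lev i = m) := Finset.mem_filter.mpr ⟨hi, h1⟩
          constructor
          · intro h4
            have : i ∈ ((T.filter (fun i => lev i = m)).filter (fun i => pr y i)) := by
              rw [← h3]
              exact Finset.mem_filter.mpr ⟨hi', h4⟩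
            exact (Finset.mem_filter.mp this).2
          · intro h4
            have : i ∈ ((T.filter (fun i => lev i = m)).filter (fun i => pr x i)) := by
              rw [h3]
              exact Finset.mem_filter.mpr ⟨hi', h4⟩
            exact (Finset.mem_filter.mp this).2

/-- tests of levels `< h` change less than `∏ (t l + 1)` times along a chain -/
theorem abs_changes (hM : ∀ x y, R x y → ∀ l, (∀ i ∈ T, lev i < l → (pr x i ↔ pr y i)) →
      ∀ i ∈ T, lev i = l → pr x i → pr y i)
    {h : ℕ} (hh : ∀ i ∈ T, lev i < h) (x : ℕ → X) (hx : ∀ i, R (x i) (x (i + 1))) (J : Finset ℕ)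
    (hJ : ∀ i ∈ J, ∃ t ∈ T, ¬ (pr (x i) t ↔ pr (x (i + 1)) t)) :
    J.card + 1 ≤ ∏ l ∈ range h, ((T.filter (fun i => lev i = l)).card + 1) := by
  classical
  have key : ∀ k, (J.filter (fun i => i < k)).card ≤ ark T pr lev (x k) h := by
    intro k
    induction k with
    | zero => simp
    | succ k ih =>
      by_cases hkJ : k ∈ J
      · have hs : J.filter (fun i => i < k + 1) = insert k (J.filter (fun i => i < k)) := by
          ext i
          simp only [Finset.mem_filter, Finset.mem_insert]
          constructor
          · rintro ⟨h1, h2⟩
            rcases Nat.lt_succ_iff_lt_or_eq.mp h2 with h3 | h3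
            · exact Or.inr ⟨h1, h3⟩
            · exact Or.inl h3
          · rintro (h1 | h1)
            · rw [h1]; exact ⟨hkJ, Nat.lt_succ_self _⟩
            · exact ⟨h1.1, h1.2.trans (Nat.lt_succ_self _)⟩
        have h4 : ark T pr lev (x k) h < ark T pr lev (x (k + 1)) h := by
          rcases ark_mono hM (hx k) h with h5 | ⟨_, h5⟩
          · exact h5
          · exfalso
            obtain ⟨t, ht, hne⟩ := hJ k hkJ
            exact hne (h5 t ht (hh t ht))
        rw [hs]
        exact (Finset.card_insert_le _ _).trans (by omega)
      · have hs : J.filter (fun i => i < k + 1) = J.filter (fun i => i < k) := by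
          ext i
          simp only [Finset.mem_filter]
          constructor
          · rintro ⟨h1, h2⟩
            rcases Nat.lt_succ_iff_lt_or_eq.mp h2 with h3 | h3
            · exact ⟨h1, h3⟩
            · rw [h3] at h1; exact absurd h1 hkJ
          · rintro ⟨h1, h2⟩
            exact ⟨h1, h2.trans (Nat.lt_succ_self _)⟩
        rw [hs]
        refine ih.trans ?_
        rcases ark_mono hM (hx k) h with h5 | ⟨h5, _⟩
        · exact h5.le
        · exact h5.le
  have h5 : J.filter (fun i => i < J.sup id + 1) = J :=
    Finset.filter_true_of_mem (fun i hi => Nat.lt_succ_of_le (Finset.le_sup (f := id) hi))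
  have h6 := key (J.sup id + 1)
  rw [h5] at h6
  have h7 := ark_lt (T := T) (pr := pr) (lev := lev) (x (J.sup id + 1)) h
  omega

end

end Pool.Agent.W2helper22.AL
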