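import Mathlib

/-! The inequality of arithmetic and geometric means for `h` numbers. -/

set_option autoImplicit false

namespace Pool.Agent.W2helper22.AL

open Finset

lemma amgm (h : ℕ) (hh : 1 ≤ h) (z : ℕ → ℝ) (hz : ∀ l, 0 ≤ z l) (S : ℝ)
    (hS : ∑ l ∈ range h, z l ≤ S) : ∏ l ∈ range h, z l ≤ (S / h) ^ h := by
  have h0 : (0 : ℝ) < h := by exact_mod_cast hh
  have hP : 0 ≤ ∏ l ∈ range h, z l := Finset.prod_nonneg fun l _ => hz l
  have hsum : 0 ≤ ∑ l ∈ range h, z l := Finset.sum_nonneg fun l _ => hz l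
  have key := Real.geom_mean_le_arith_mean (range h) (fun _ => (1 : ℝ)) z
    (fun _ _ => zero_le_one) (by simpa using h0) (fun l _ => hz l)
  simp only [Real.rpow_one, sum_const, card_range, nsmul_eq_mul, mul_one, one_mul] at key
  have h1 := Real.rpow_le_rpow (Real.rpow_nonneg hP _) key h0.le
  rw [← Real.rpow_mul hP, inv_mul_cancel₀ h0.ne', Real.rpow_one, Real.rpow_natCast] at h1
  refine h1.trans (pow_le_pow_left₀ (by positivity) ?_ h)
  exact div_le_div_of_nonneg_right hS h0.le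

lemma amgm_nat (h : ℕ) (hh : 1 ≤ h) (z : ℕ → ℕ) (t : ℕ) (hS : ∑ l ∈ range h, z l ≤ t) :
    ((∏ l ∈ range h, (z l + 1) : ℕ) : ℝ) ≤ (1 + (t : ℝ) / h) ^ h := by
  have h0 : (0 : ℝ) < h := by exact_mod_cast hh
  have key := amgm h hh (fun l => ((z l + 1 : ℕ) : ℝ)) (fun l => by positivity) (t + h) (by
    have : ∑ l ∈ range h, (z l + 1) ≤ t + h := by
      rw [Finset.sum_add_distrib]
      simp only [sum_const, card_range, smul_eq_mul, mul_one]
      omega
    exact_mod_cast this)
  have e : ((t : ℝ) + h) / h = 1 + (t : ℝ) / h := by field_simp; ring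
  rw [e] at key
  rw [Nat.cast_prod]
  exact key

end Pool.Agent.W2helper22.AL
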