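import Pool.Agent.W2helper76.RW.Frozen
import Pool.Agent.W2helper22.AL.Abs
import Pool.Agent.W2helper22.AL.AmGm

/-! Alternations and nesting levels of NOT gates in Boolean circuits. -/

set_option autoImplicit false
set_option linter.unusedSectionVars false

namespace Pool.Agent.W2helper22.AL

open Finset Pool.Agent.W2helper76.RW

variable {I : Type}

/-- Each increasing chain of inputs has at most `κ` steps at which some NOT gate of the circuit changes
its value. -/
def Alternates (C : Circuit I) (κ : ℕ) : Prop :=
  ∀ x : ℕ → I → Bool, (∀ i p, x i p = true → x (i + 1) p = true) → ∀ J : Finset ℕ,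
    (∀ i ∈ J, ∃ g, C.IsNot g ∧ C.val (x i) g ≠ C.val (x (i + 1)) g) → J.card ≤ κ

/-- At most `h` NOT gates lie on each path: there are numbers `lev i ≤ h` which do not decrease from an
argument to its gate and which increase at the NOT gates. -/
def Nesting (C : Circuit I) (h : ℕ) (lev : Fin C.s → ℕ) : Prop :=
  (∀ i a, C.gate i = Gate.not a → lev a < lev i) ∧
    (∀ i a b, C.gate i = Gate.and a b → lev a ≤ lev i ∧ lev b ≤ lev i) ∧
    (∀ i a b, C.gate i = Gate.or a b → lev a ≤ lev i ∧ lev b ≤ lev i) ∧ ∀ i, lev i ≤ h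

open Classical in
/-- few changes along a decreasing sequence of inputs -/
lemma count_le {C : Circuit I} {κ : ℕ} (h : Alternates C κ) (D0 m : ℕ) (y : ℕ → I → Bool)
    (hy : ∀ b p, y (b + 1) p = true → y b p = true) :
    ∑ b : Fin m, (if C.Changed D0 (y (b.val + 1)) (y b.val) then (1 : ℝ) else 0) ≤ κ := by
  have h1 := h (fun i => y (m - i)) (fun i p hp => by
    by_cases hi : i < m
    · have e : m - i = (m - (i + 1)) + 1 := by omega
      simp only [e] at hp
      exact hy _ _ hp
    · have e : m - i = m - (i + 1) := by omega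
      simp only [e] at hp
      exact hp)
    ((range m).filter (fun i => C.Changed D0 (y (m - i)) (y (m - (i + 1)))))
    (fun i hi => by
      obtain ⟨g, hg, hne⟩ := (Finset.mem_filter.mp hi).2
      exact ⟨g, (C.mem_nots.1 hg).1, hne⟩)
  have e : ∀ i ∈ range m, (if C.Changed D0 (y (m - 1 - i + 1)) (y (m - 1 - i)) then (1 : ℝ) else 0) =
      if C.Changed D0 (y (m - i)) (y (m - (i + 1))) then (1 : ℝ) else 0 := by
    intro i hi
    have hi' := Finset.mem_range.mp hi
    have e1 : m - 1 - i + 1 = m - i := by omega
    have e2 : m - 1 - i = m - (i + 1) := by omega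
    rw [e1, e2]
  rw [← Finset.sum_range (fun b => if C.Changed D0 (y (b + 1)) (y b) then (1 : ℝ) else 0),
    ← Finset.sum_range_reflect, Finset.sum_congr rfl e, Finset.sum_boole]
  exact_mod_cast h1

/-- gates are monotone while the NOT gates of lower level do not change -/
lemma mono_lev {C : Circuit I} {h : ℕ} {lev : Fin C.s → ℕ} (hl : Nesting C h lev)
    {x x' : I → Bool} (hx : ∀ p, x p = true → x' p = true) {l : ℕ}
    (hsame : ∀ i, C.IsNot i → lev i ≤ l → (C.val x i = C.val x' i)) :
    ∀ (m : ℕ) (i : Fin C.s), i.val = m → lev i ≤ l → C.val x i = true → C.val x' i = true := by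
  intro m
  induction m using Nat.strong_induction_on with
  | _ m ih =>
    intro i hm hli hxi
    cases hg : C.gate i with
    | inp p => rw [C.val_inp hg] at hxi ⊢; exact hx p hxi
    | const c => rw [C.val_const hg] at hxi ⊢; exact hxi
    | not a => rw [← hsame i ⟨a, hg⟩ hli]; exact hxi
    | and a b =>
      obtain ⟨ha, hb⟩ := C.and_lt i a b hg
      obtain ⟨la, lb⟩ := hl.2.1 i a b hg
      rw [C.val_and hg, Bool.and_eq_true] at hxi ⊢
      exact ⟨ih a.val (by rw [← hm]; exact ha) a rfl (la.trans hli) hxi.1,
        ih b.val (by rw [← hm]; exact hb) b rfl (lb.trans hli) hxi.2⟩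
    | or a b =>
      obtain ⟨ha, hb⟩ := C.or_lt i a b hg
      obtain ⟨la, lb⟩ := hl.2.2.1 i a b hg
      rw [C.val_or hg, Bool.or_eq_true] at hxi ⊢
      exact hxi.imp (ih a.val (by rw [← hm]; exact ha) a rfl (la.trans hli))
        (ih b.val (by rw [← hm]; exact hb) b rfl (lb.trans hli))

open Classical in
/-- Nesting levels bound the number of alternations. -/
theorem alternates_of_nesting (C : Circuit I) (h : ℕ) (lev : Fin C.s → ℕ) (t : ℕ → ℕ)
    (hl : Nesting C h lev)
    (ht : ∀ l < h, (univ.filter (fun i => C.IsNot i ∧ lev i = l + 1)).card ≤ t l) :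
    Alternates C (∏ l ∈ range h, (t l + 1) - 1) := by
  intro x hx J hJ
  have hpos : ∀ i, C.IsNot i → 1 ≤ lev i := by
    rintro i ⟨a, ha⟩
    exact Nat.one_le_iff_ne_zero.mpr (by have := hl.1 i a ha; omega)
  have key := abs_changes (X := I → Bool) (τ := Fin C.s) (T := univ.filter (fun i => C.IsNot i))
    (pr := fun x i => C.val x i = false) (lev := fun i => lev i - 1)
    (R := fun x x' => ∀ p, x p = true → x' p = true)
    (by
      intro x y hxy l hsame i hi hil hxi
      have hiN := (Finset.mem_filter.mp hi).2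
      obtain ⟨a, ha⟩ := hiN
      have h1 : lev a ≤ l := by
        have := hl.1 i a ha
        have := hpos i ⟨a, ha⟩
        omega
      have h2 : ∀ j, C.IsNot j → lev j ≤ l → C.val x j = C.val y j := by
        intro j hj hjl
        have h3 := hpos j hj
        have h4 := hsame j (Finset.mem_filter.mpr ⟨mem_univ _, hj⟩) (by omega)
        cases h5 : C.val x j <;> cases h6 : C.val y j
        · rfl
        · rw [h4.mp h5] at h6; exact absurd h6 (by simp)
        · rw [h4.mpr h6] at h5; exact absurd h5 (by simp)
        · rfl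
      show C.val y i = false
      have hxi' : C.val x i = false := hxi
      rw [C.val_not ha] at hxi' ⊢
      have h7 : C.val x a = true := by simpa using hxi'
      rw [mono_lev hl hxy h2 a.val a rfl h1 h7]
      rfl)
    (h := h) (fun i hi => by
      have h1 := hpos i (Finset.mem_filter.mp hi).2
      have h2 := hl.2.2.2 i
      show lev i - 1 < h
      omega)
    x hx J (fun i hi => by
      obtain ⟨g, hg, hne⟩ := hJ i hi
      refine ⟨g, Finset.mem_filter.mpr ⟨mem_univ _, hg⟩, ?_⟩
      show ¬ (C.val (x i) g = false ↔ C.val (x (i + 1)) g = false)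
      intro h1
      apply hne
      cases h5 : C.val (x i) g <;> cases h6 : C.val (x (i + 1)) g
      · rfl
      · rw [h1.mp h5] at h6; exact absurd h6 (by simp)
      · rw [h1.mpr h6] at h5; exact absurd h5 (by simp)
      · rfl)
  have h2 : ∏ l ∈ range h, (((univ.filter (fun i => C.IsNot i)).filter (fun i => lev i - 1 = l)).card + 1) ≤
      ∏ l ∈ range h, (t l + 1) := by
    refine Finset.prod_le_prod' fun l hl' => Nat.succ_le_succ ?_
    refine le_trans (Finset.card_le_card ?_) (ht l (Finset.mem_range.mp hl'))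
    intro i hi
    obtain ⟨h3, h4⟩ := Finset.mem_filter.mp hi
    have h5 := (Finset.mem_filter.mp h3).2
    have h6 := hpos i h5
    exact Finset.mem_filter.mpr ⟨mem_univ _, h5, by omega⟩
  have h3 := key.trans h2
  omega

lemma card_le_numNot (C : Circuit I) (s : Finset (Fin C.s)) (hs : ∀ i ∈ s, C.IsNot i) :
    s.card ≤ C.numNot := by
  classical
  unfold Circuit.numNot
  rw [← Set.ncard_coe_finset]
  apply Set.ncard_le_ncard _ (Set.toFinite _)
  intro i hi
  exact hs i (Finset.mem_coe.mp hi)

open Classical in
/-- Nesting levels and the number of NOT gates. -/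
theorem alternates_total (C : Circuit I) {h t : ℕ} (hh : 1 ≤ h) (lev : Fin C.s → ℕ)
    (hl : Nesting C h lev) (ht : C.numNot ≤ t) :
    Alternates C (⌊(1 + (t : ℝ) / h) ^ h⌋₊ - 1) := by
  have h1 := alternates_of_nesting C h lev
    (fun l => (univ.filter (fun i => C.IsNot i ∧ lev i = l + 1)).card) hl (fun l _ => le_rfl)
  have h2 : ∑ l ∈ range h, (univ.filter (fun i => C.IsNot i ∧ lev i = l + 1)).card ≤ t := by
    have e1 := Finset.card_eq_sum_card_fiberwise (f := fun i => lev i - 1)
      (s := univ.filter (fun i => C.IsNot i)) (t := range h) (by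
        intro i hi
        obtain ⟨a, ha⟩ := (Finset.mem_filter.mp (Finset.mem_coe.mp hi)).2
        have := hl.1 i a ha
        have := hl.2.2.2 i
        rw [Finset.mem_coe, Finset.mem_range]
        show lev i - 1 < h
        omega)
    have e2 := card_le_numNot C (univ.filter (fun i => C.IsNot i))
      (fun i hi => (Finset.mem_filter.mp hi).2)
    refine le_trans (le_trans (Finset.sum_le_sum fun l _ => ?_) e1.ge) (e2.trans ht)
    apply Finset.card_le_card
    intro i hi
    obtain ⟨_, h3, h4⟩ := Finset.mem_filter.mp hi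
    refine Finset.mem_filter.mpr ⟨Finset.mem_filter.mpr ⟨mem_univ _, h3⟩, ?_⟩
    show lev i - 1 = l
    omega
  have h3 := amgm_nat h hh _ t h2
  have h4 := Nat.le_floor h3
  intro x hx J hJ
  have h5 := h1 x hx J hJ
  omega

open Classical in
/-- Every circuit has less than `2 ^ numNot` alternations. -/
theorem alternates_pow (C : Circuit I) : Alternates C (2 ^ C.numNot - 1) := by
  set lev : Fin C.s → ℕ := fun i => (univ.filter (fun j => C.IsNot j ∧ j ≤ i)).card with hlev
  have hmono : ∀ a i : Fin C.s, a ≤ i → lev a ≤ lev i := by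
    intro a i hai
    apply Finset.card_le_card
    intro j hj
    obtain ⟨_, h1, h2⟩ := Finset.mem_filter.mp hj
    exact Finset.mem_filter.mpr ⟨mem_univ _, h1, h2.trans hai⟩
  have hlt : ∀ a i : Fin C.s, a < i → C.IsNot i → lev a < lev i := by
    intro a i hai hi
    apply Finset.card_lt_card
    rw [Finset.ssubset_iff_of_subset]
    · exact ⟨i, Finset.mem_filter.mpr ⟨mem_univ _, hi, le_rfl⟩, fun h =>
        absurd (Finset.mem_filter.mp h).2.2 hai.not_ge⟩
    · intro j hj
      obtain ⟨_, h1, h2⟩ := Finset.mem_filter.mp hj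
      exact Finset.mem_filter.mpr ⟨mem_univ _, h1, h2.trans hai.le⟩
  have hl : Nesting C C.numNot lev := by
    refine ⟨fun i a h => hlt a i (C.not_lt i a h) ⟨a, h⟩, fun i a b h => ?_, fun i a b h => ?_,
      fun i => ?_⟩
    · obtain ⟨h1, h2⟩ := C.and_lt i a b h
      exact ⟨hmono a i h1.le, hmono b i h2.le⟩
    · obtain ⟨h1, h2⟩ := C.or_lt i a b h
      exact ⟨hmono a i h1.le, hmono b i h2.le⟩
    · exact card_le_numNot C _ (fun j hj => (Finset.mem_filter.mp hj).2.1)
  have key := alternates_of_nesting C C.numNot lev (fun _ => 1) hl (by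
    intro l _
    rw [Finset.card_le_one]
    intro i hi j hj
    obtain ⟨_, h1, h2⟩ := Finset.mem_filter.mp hi
    obtain ⟨_, h3, h4⟩ := Finset.mem_filter.mp hj
    rcases lt_trichotomy i j with h | h | h
    · have := hlt i j h h3
      omega
    · exact h
    · have := hlt j i h h1
      omega)
  simpa using key

end Pool.Agent.W2helper22.AL
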