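import Pool.Agent.W2helper76.RW.PMDepth
import Pool.Agent.W2helper22.AL.Bool

/-! Perfect matching: depth against the number of alternations. The proofs are those of
`Pool.Agent.W2helper76.RW` (`chain`, `blocks_bound`, `pm_bound`), with the number of alternations in
place of `2 ^ t`. -/

set_option autoImplicit false
set_option linter.unusedSectionVars false

open Finset

namespace Pool.Agent.W2helper22.AL

open Pool.Agent.W2helper76.RW
open Pool.Agent.W2lead.PM (graph HasPM graph_adj hasPM_of_invol)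

section

variable {ι : Type} [DecidableEq ι] [Fintype ι] {I : Type} {m : ℕ}

open Classical in
/-- Circuits with few NOT gates yield monotone formulas with a constant advantage. -/
theorem chainD {t D : ℕ} (hN : 1 ≤ Fintype.card ι) (hm : 0 < m) (spec : I → Bool ⊕ (Fin m × WV ι))
    {Ω : Type} [Fintype Ω] (p : Ω → ℝ) (hp : ∀ ω, 0 ≤ p ω) (hp1 : ∑ ω, p ω = 1) (C : Ω → Circuit I)
    (ht : ∀ ω, (C ω).numNot ≤ t) {κ : ℕ} (hκ : ∀ ω, Alternates (C ω) κ) (hD : ∀ ω, (C ω).depth (C ω).out ≤ D) {θ δ : ℝ}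
    (hyes : ∀ z : Fin m → WV ι → Bool, (∀ b, z b = (fun _ => true) ∨ ∃ g, z b = act g (mX ∅)) →
      θ + δ ≤ ∑ ω, p ω * (if (C ω).eval (enc spec z) = true then 1 else 0))
    (hno : ∀ z : Fin m → WV ι → Bool, (∃ b g y, z b = act g (mY y)) →
      ∑ ω, p ω * (if (C ω).eval (enc spec z) = true then 1 else 0) ≤ θ) :
    ∃ F : MF (WV ι), F.depth ≤ D + Nat.clog 2 (t + 1) ∧
      (δ - (κ : ℝ) / m) * Fintype.card (GV ι) ≤ acc F (mX ∅) - Eno (fun y => acc F (mY y)) := by
  obtain ⟨q, hq, hq1, hEno⟩ := Eno_weights (ι := ι) hN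
  -- the formulas of the windows
  have hwin : ∀ (ω : Ω) (b : Fin m) (γ : Fin m → GV ι), ∃ G : MF (WV ι),
      G.depth ≤ D + Nat.clog 2 (t + 1) ∧
      (∀ g, (if (C ω).eval (enc spec (base (b.val + 1) (Function.update γ b g))) = true then (1 : ℝ) else 0) -
        (if (C ω).Changed ((C ω).depth (C ω).out) (enc spec (base (b.val + 1) (Function.update γ b g)))
          (enc spec (base b.val (Function.update γ b g))) then 1 else 0) ≤
        if G.eval (act g (mX ∅)) = true then 1 else 0) ∧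
      (∀ z, (if G.eval z = true then (1 : ℝ) else 0) ≤
        if (C ω).eval (enc spec (Function.update (base b.val γ) b z)) = true then 1 else 0) := by
    intro ω b γ
    obtain ⟨G, hG1, hG2, hG3⟩ := window (C ω) (ht ω) (hD ω) (phi spec b) (enc spec (base b.val γ))
    refine ⟨G, hG1, ?_, ?_⟩
    · intro g
      have h := hG2 (act g (mX ∅))
      rw [inpt_enc, inpt_enc, base_update_act, base_update_true b γ g] at h
      by_cases h1 : (C ω).Changed ((C ω).depth (C ω).out)
          (enc spec (base (b.val + 1) (Function.update γ b g)))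
          (enc spec (base b.val (Function.update γ b g)))
      · rw [if_pos h1]
        have e1 : (if (C ω).eval (enc spec (base (b.val + 1) (Function.update γ b g))) = true
          then (1 : ℝ) else 0) ≤ 1 := by split_ifs <;> norm_num
        have e2 : (0 : ℝ) ≤ if G.eval (act g (mX ∅)) = true then 1 else 0 := by
          split_ifs <;> norm_num
        linarith
      · rw [if_neg h1, sub_zero]
        by_cases h2 : (C ω).eval (enc spec (base (b.val + 1) (Function.update γ b g))) = true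
        · rw [if_pos h2, if_pos (h h1 h2)]
        · rw [if_neg h2]
          split_ifs <;> norm_num
    · intro z
      have h := hG3 z
      rw [inpt_enc] at h
      by_cases h2 : G.eval z = true
      · rw [if_pos h2, if_pos (h h2)]
      · rw [if_neg h2]
        split_ifs <;> norm_num
  choose G hG1 hG2 hG3 using hwin
  by_contra hcon
  push Not at hcon
  set Γ : ℝ := (Fintype.card (GV ι) : ℝ) with hΓ
  have hΓ0 : 0 < Γ := by rw [hΓ]; exact_mod_cast Fintype.card_pos
  set M : ℝ := (Fintype.card (Fin m → GV ι) : ℝ) with hM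
  have hM0 : 0 < M := by rw [hM]; exact_mod_cast Fintype.card_pos
  have hm0 : (0 : ℝ) < m := by exact_mod_cast hm
  -- every window has a small advantage
  have hbad : ∀ ω b γ, acc (G ω b γ) (mX ∅) - Eno (fun y => acc (G ω b γ) (mY y)) <
      (δ - (κ : ℝ) / m) * Γ := fun ω b γ => hcon (G ω b γ) (hG1 ω b γ)
  have hacc : ∀ F : MF (WV ι), ∀ z, acc F z = ∑ g : GV ι, (if F.eval (act g z) = true then (1 : ℝ) else 0) := by
    intro F z
    unfold acc
    rw [Finset.sum_boole]
  -- the sum of the advantages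
  set S : ℝ := ∑ ω, p ω * ∑ b : Fin m, ∑ γ : Fin m → GV ι,
    (acc (G ω b γ) (mX ∅) - Eno (fun y => acc (G ω b γ) (mY y))) with hS
  have hlt : S < (δ - (κ : ℝ) / m) * Γ * (m * M) := by
    have hne : ∃ ω, 0 < p ω := by
      by_contra hne
      push Not at hne
      have : ∑ ω, p ω ≤ 0 := Finset.sum_nonpos (fun ω _ => hne ω)
      linarith
    obtain ⟨ω0, hω0⟩ := hne
    have hin : ∀ ω, ∑ b : Fin m, ∑ γ : Fin m → GV ι,
        (acc (G ω b γ) (mX ∅) - Eno (fun y => acc (G ω b γ) (mY y))) < (δ - (κ : ℝ) / m) * Γ * (m * M) := by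
      intro ω
      have : ∑ b : Fin m, ∑ γ : Fin m → GV ι, (δ - (κ : ℝ) / m) * Γ = (δ - (κ : ℝ) / m) * Γ * (m * M) := by
        rw [Finset.sum_const, Finset.sum_const, Finset.card_univ, Finset.card_univ, nsmul_eq_mul,
          nsmul_eq_mul, Fintype.card_fin, ← hM]
        ring
      rw [← this]
      have : Nonempty (Fin m) := ⟨⟨0, hm⟩⟩
      apply Finset.sum_lt_sum_of_nonempty Finset.univ_nonempty
      intro b _
      apply Finset.sum_lt_sum_of_nonempty Finset.univ_nonempty
      intro γ _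
      exact hbad ω b γ
    calc S < ∑ ω, p ω * ((δ - (κ : ℝ) / m) * Γ * (m * M)) := by
          apply Finset.sum_lt_sum
          · intro ω _
            exact mul_le_mul_of_nonneg_left (hin ω).le (hp ω)
          · exact ⟨ω0, mem_univ _, mul_lt_mul_of_pos_left (hin ω0) hω0⟩
      _ = _ := by rw [← Finset.sum_mul, hp1, one_mul]
  -- the yes part
  have hY : (θ + δ) * (m * (M * Γ)) - (κ : ℝ) * (M * Γ) ≤
      ∑ ω, p ω * ∑ b : Fin m, ∑ γ : Fin m → GV ι, acc (G ω b γ) (mX ∅) := by
    have h1 : ∀ ω, ∑ b : Fin m, ∑ γ : Fin m → GV ι, ∑ g : GV ι,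
        (if (C ω).eval (enc spec (base (b.val + 1) (Function.update γ b g))) = true then (1 : ℝ) else 0) -
        (κ : ℝ) * (M * Γ) ≤ ∑ b : Fin m, ∑ γ : Fin m → GV ι, acc (G ω b γ) (mX ∅) := by
      intro ω
      have hch : ∑ b : Fin m, ∑ γ : Fin m → GV ι, ∑ g : GV ι,
          (if (C ω).Changed ((C ω).depth (C ω).out) (enc spec (base (b.val + 1) (Function.update γ b g)))
          (enc spec (base b.val (Function.update γ b g))) then (1 : ℝ) else 0) ≤ (κ : ℝ) * (M * Γ) := by
        have e1 : ∀ b : Fin m, ∑ γ : Fin m → GV ι, ∑ g : GV ι,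
            (if (C ω).Changed ((C ω).depth (C ω).out) (enc spec (base (b.val + 1) (Function.update γ b g)))
            (enc spec (base b.val (Function.update γ b g))) then (1 : ℝ) else 0) =
            Γ * ∑ γ : Fin m → GV ι, (if (C ω).Changed ((C ω).depth (C ω).out)
              (enc spec (base (b.val + 1) γ)) (enc spec (base b.val γ)) then (1 : ℝ) else 0) :=
          fun b => resample b (fun γ => if (C ω).Changed ((C ω).depth (C ω).out)
              (enc spec (base (b.val + 1) γ)) (enc spec (base b.val γ)) then (1 : ℝ) else 0)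
        rw [Finset.sum_congr rfl (fun b _ => e1 b), ← Finset.mul_sum, Finset.sum_comm]
        have e2 : ∑ γ : Fin m → GV ι, ∑ b : Fin m, (if (C ω).Changed ((C ω).depth (C ω).out)
              (enc spec (base (b.val + 1) γ)) (enc spec (base b.val γ)) then (1 : ℝ) else 0) ≤
            ∑ γ : Fin m → GV ι, (κ : ℝ) :=
          Finset.sum_le_sum (fun γ _ => count_le (hκ ω) _ m (fun b => enc spec (base b γ))
            (fun b p => enc_mono spec _ _ (base_anti b γ) p))
        rw [Finset.sum_const, Finset.card_univ, nsmul_eq_mul, ← hM] at e2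
        calc _ ≤ Γ * (M * (κ : ℝ)) := mul_le_mul_of_nonneg_left e2 hΓ0.le
          _ = _ := by ring
      refine le_trans (sub_le_sub_left hch _) ?_
      rw [← Finset.sum_sub_distrib]
      apply Finset.sum_le_sum
      intro b _
      rw [← Finset.sum_sub_distrib]
      apply Finset.sum_le_sum
      intro γ _
      rw [← Finset.sum_sub_distrib, hacc]
      apply Finset.sum_le_sum
      intro g _
      exact hG2 ω b γ g
    have h2 : (θ + δ) * (m * (M * Γ)) ≤ ∑ ω, p ω * ∑ b : Fin m, ∑ γ : Fin m → GV ι, ∑ g : GV ι,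
        (if (C ω).eval (enc spec (base (b.val + 1) (Function.update γ b g))) = true then (1 : ℝ) else 0) := by
      have e1 : ∑ ω, p ω * ∑ b : Fin m, ∑ γ : Fin m → GV ι, ∑ g : GV ι,
          (if (C ω).eval (enc spec (base (b.val + 1) (Function.update γ b g))) = true then (1 : ℝ) else 0) =
          ∑ b : Fin m, ∑ γ : Fin m → GV ι, ∑ g : GV ι, ∑ ω, p ω *
          (if (C ω).eval (enc spec (base (b.val + 1) (Function.update γ b g))) = true then (1 : ℝ) else 0) := by
        simp only [Finset.mul_sum]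
        rw [Finset.sum_comm]
        apply Finset.sum_congr rfl
        intro b _
        rw [Finset.sum_comm]
        apply Finset.sum_congr rfl
        intro γ _
        rw [Finset.sum_comm]
      rw [e1]
      have e2 : (θ + δ) * (m * (M * Γ)) = ∑ b : Fin m, ∑ γ : Fin m → GV ι, ∑ g : GV ι, (θ + δ) := by
        simp only [Finset.sum_const, Finset.card_univ, nsmul_eq_mul, Fintype.card_fin, ← hM, ← hΓ]
        ring
      rw [e2]
      apply Finset.sum_le_sum
      intro b _
      apply Finset.sum_le_sum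
      intro γ _
      apply Finset.sum_le_sum
      intro g _
      apply hyes
      intro b'
      unfold base
      by_cases h : b'.val < b.val + 1
      · rw [if_pos h]; right; exact ⟨_, rfl⟩
      · rw [if_neg h]; left; rfl
    have h3 : ∑ ω, p ω * (∑ b : Fin m, ∑ γ : Fin m → GV ι, ∑ g : GV ι,
        (if (C ω).eval (enc spec (base (b.val + 1) (Function.update γ b g))) = true then (1 : ℝ) else 0) -
        (κ : ℝ) * (M * Γ)) ≤ ∑ ω, p ω * ∑ b : Fin m, ∑ γ : Fin m → GV ι, acc (G ω b γ) (mX ∅) :=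
      Finset.sum_le_sum (fun ω _ => mul_le_mul_of_nonneg_left (h1 ω) (hp ω))
    have h4 : ∑ ω, p ω * (∑ b : Fin m, ∑ γ : Fin m → GV ι, ∑ g : GV ι,
        (if (C ω).eval (enc spec (base (b.val + 1) (Function.update γ b g))) = true then (1 : ℝ) else 0) -
        (κ : ℝ) * (M * Γ)) = ∑ ω, p ω * ∑ b : Fin m, ∑ γ : Fin m → GV ι, ∑ g : GV ι,
        (if (C ω).eval (enc spec (base (b.val + 1) (Function.update γ b g))) = true then (1 : ℝ) else 0) -
        (κ : ℝ) * (M * Γ) := by
      simp only [mul_sub, Finset.sum_sub_distrib]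
      rw [← Finset.sum_mul, hp1, one_mul]
    linarith
  -- the no part
  have hNo : ∑ ω, p ω * ∑ b : Fin m, ∑ γ : Fin m → GV ι, Eno (fun y => acc (G ω b γ) (mY y)) ≤
      θ * (m * (M * Γ)) := by
    have e1 : ∑ ω, p ω * ∑ b : Fin m, ∑ γ : Fin m → GV ι, Eno (fun y => acc (G ω b γ) (mY y)) ≤
        ∑ ω, p ω * ∑ b : Fin m, ∑ γ : Fin m → GV ι, ∑ y, q y * ∑ g : GV ι,
          (if (C ω).eval (enc spec (Function.update (base b.val γ) b (act g (mY y)))) = true
            then (1 : ℝ) else 0) := by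
      apply Finset.sum_le_sum
      intro ω _
      apply mul_le_mul_of_nonneg_left _ (hp ω)
      apply Finset.sum_le_sum
      intro b _
      apply Finset.sum_le_sum
      intro γ _
      rw [hEno]
      apply Finset.sum_le_sum
      intro y _
      apply mul_le_mul_of_nonneg_left _ (hq y)
      rw [hacc]
      apply Finset.sum_le_sum
      intro g _
      exact hG3 ω b γ (act g (mY y))
    refine e1.trans ?_
    have e2 : ∑ ω, p ω * ∑ b : Fin m, ∑ γ : Fin m → GV ι, ∑ y, q y * ∑ g : GV ι,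
          (if (C ω).eval (enc spec (Function.update (base b.val γ) b (act g (mY y)))) = true
            then (1 : ℝ) else 0) =
        ∑ b : Fin m, ∑ γ : Fin m → GV ι, ∑ y, q y * ∑ g : GV ι, ∑ ω, p ω *
          (if (C ω).eval (enc spec (Function.update (base b.val γ) b (act g (mY y)))) = true
            then (1 : ℝ) else 0) := by
      simp only [Finset.mul_sum]
      rw [Finset.sum_comm]
      apply Finset.sum_congr rfl
      intro b _
      rw [Finset.sum_comm]
      apply Finset.sum_congr rfl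
      intro γ _
      rw [Finset.sum_comm]
      apply Finset.sum_congr rfl
      intro y _
      rw [Finset.sum_comm]
      apply Finset.sum_congr rfl
      intro g _
      apply Finset.sum_congr rfl
      intro ω _
      ring
    rw [e2]
    have e3 : θ * (m * (M * Γ)) = ∑ b : Fin m, ∑ γ : Fin m → GV ι, ∑ y, q y * ∑ g : GV ι, θ := by
      simp only [Finset.sum_const, Finset.card_univ, nsmul_eq_mul, Fintype.card_fin, ← hM, ← hΓ,
        ← Finset.sum_mul, hq1]
      ring
    rw [e3]
    apply Finset.sum_le_sum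
    intro b _
    apply Finset.sum_le_sum
    intro γ _
    apply Finset.sum_le_sum
    intro y _
    apply mul_le_mul_of_nonneg_left _ (hq y)
    apply Finset.sum_le_sum
    intro g _
    apply hno
    exact ⟨b, g, y, by simp⟩
  have hSS : S = ∑ ω, p ω * ∑ b : Fin m, ∑ γ : Fin m → GV ι, acc (G ω b γ) (mX ∅) -
      ∑ ω, p ω * ∑ b : Fin m, ∑ γ : Fin m → GV ι, Eno (fun y => acc (G ω b γ) (mY y)) := by
    rw [hS]
    simp only [Finset.sum_sub_distrib, mul_sub]
  have hfin : (δ - (κ : ℝ) / m) * Γ * (m * M) = δ * (m * (M * Γ)) - (κ : ℝ) * (M * Γ) := by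
    field_simp
  rw [hSS, hfin] at hlt
  linarith

end

open Classical in
/-- Circuits with few NOT gates that decide whether all blocks have perfect matchings have large
depth. -/
theorem blocks_boundD {δ : ℝ} (hδ : 0 < δ) : ∃ c : ℝ, 0 < c ∧ ∀ (N m t D κ : ℕ), 1 ≤ N → 0 < m →
    (κ : ℝ) / m ≤ δ / 2 → ∀ (I : Type) (spec : I → Bool ⊕ (Fin m × WV (Fin N)))
    (Ω : Type) [Fintype Ω] (p : Ω → ℝ), (∀ ω, 0 ≤ p ω) → ∑ ω, p ω = 1 → ∀ C : Ω → Circuit I,
    (∀ ω, (C ω).numNot ≤ t) → (∀ ω, Alternates (C ω) κ) → (∀ ω, (C ω).depth (C ω).out ≤ D) → ∀ θ : ℝ,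
    (∀ z : Fin m → WV (Fin N) → Bool, (∀ b, z b = (fun _ => true) ∨ ∃ g, z b = act g (mX ∅)) →
      θ + δ ≤ ∑ ω, p ω * (if (C ω).eval (enc spec z) = true then 1 else 0)) →
    (∀ z : Fin m → WV (Fin N) → Bool, (∃ b g y, z b = act g (mY y)) →
      ∑ ω, p ω * (if (C ω).eval (enc spec z) = true then 1 else 0) ≤ θ) →
    c * N ≤ D + Real.logb 2 (t + 2) := by
  obtain ⟨ε, c0, hε, hc0, hcore⟩ := core_depth (δ := δ / 2) (by linarith)
  have hden : 0 < 4 * Real.log 2 + |Real.log c0| := by
    have := Real.log_pos (one_lt_two)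
    positivity
  refine ⟨ε / (4 * Real.log 2 + |Real.log c0|), by positivity, ?_⟩
  intro N m t D κ hN hm htm I spec Ω _ p hp hp1 C ht hκ hD θ hyes hno
  have hN' : 1 ≤ Fintype.card (Fin N) := by rw [Fintype.card_fin]; exact hN
  obtain ⟨F, hF1, hF2⟩ := chainD hN' hm spec p hp hp1 C ht hκ hD hyes hno
  have hΓ0 : (0 : ℝ) < Fintype.card (GV (Fin N)) := by exact_mod_cast Fintype.card_pos
  have h1 : δ / 2 * Fintype.card (GV (Fin N)) ≤ acc F (mX ∅) - Eno (fun y => acc F (mY y)) := by
    refine le_trans (mul_le_mul_of_nonneg_right ?_ hΓ0.le) hF2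
    linarith
  have h2 := hcore (Fin N) hN' F h1
  rw [Fintype.card_fin] at h2
  set K : ℕ := D + Nat.clog 2 (t + 1) with hK
  have h3 : c0 * Real.exp (ε * N) ≤ 2 ^ (K + 2) := by
    have e1 : (2 : ℝ) ^ F.depth ≤ 2 ^ K := pow_le_pow_right₀ (by norm_num) hF1
    have e2 : (1 : ℝ) ≤ 2 ^ K := one_le_pow₀ (by norm_num)
    calc c0 * Real.exp (ε * N) ≤ 2 ^ F.depth + 2 := h2
      _ ≤ 2 ^ K + 2 * 2 ^ K := by linarith
      _ ≤ 2 ^ (K + 2) := by
        have e3 : (2 : ℝ) ^ (K + 2) = 4 * 2 ^ K := by rw [pow_succ, pow_succ]; ring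
        rw [e3]
        linarith
  have h4 := Real.log_le_log (by positivity) h3
  rw [Real.log_mul hc0.ne' (Real.exp_pos _).ne', Real.log_exp, Real.log_pow] at h4
  set R : ℝ := (D : ℝ) + Real.logb 2 (t + 2) with hR
  have hR1 : 1 ≤ R := by
    have := one_le_logb t
    have hD0 : (0 : ℝ) ≤ D := Nat.cast_nonneg D
    linarith
  have hKR : ((K + 2 : ℕ) : ℝ) ≤ 4 * R := by
    rw [hK]
    push_cast
    have := clog_le t
    linarith
  have hlog2 : 0 < Real.log 2 := Real.log_pos one_lt_two
  have h5 : ε * N ≤ (4 * Real.log 2 + |Real.log c0|) * R := by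
    have e1 : -Real.log c0 ≤ |Real.log c0| := neg_le_abs _
    have e2 : ((K + 2 : ℕ) : ℝ) * Real.log 2 ≤ 4 * R * Real.log 2 :=
      mul_le_mul_of_nonneg_right hKR hlog2.le
    have e3 : |Real.log c0| ≤ |Real.log c0| * R := le_mul_of_one_le_right (abs_nonneg _) hR1
    nlinarith
  rw [div_mul_eq_mul_div, div_le_iff₀ hden]
  linarith

/-- The main bound. -/
theorem pm_boundD {δ : ℝ} (hδ : 0 < δ) : ∃ c : ℝ, 0 < c ∧ ∀ (n t D κ : ℕ)
    (Ω : Type) [Fintype Ω] (p : Ω → ℝ) (C : Ω → Circuit (Sym2 (Fin n ⊕ Fin n))),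
    DecidesPM δ p C → (∀ ω, (C ω).numNot ≤ t) → 1 ≤ κ → (∀ ω, Alternates (C ω) κ) → (∀ ω, (C ω).depth (C ω).out ≤ D) →
    c * n / (κ : ℝ) ≤ D + Real.logb 2 (t + 2) := by
  classical
  obtain ⟨c1, hc1, hB⟩ := blocks_boundD hδ
  set A : ℝ := 2 / δ + 1 with hA
  have hA0 : 0 < A := by positivity
  refine ⟨min (c1 / (4 * A)) (1 / (8 * A)), lt_min (by positivity) (by positivity), ?_⟩
  intro n t D κ Ω _ p C hdec ht hκ1 hκ hD
  obtain ⟨hp, hp1, θ, hyes, hno⟩ := hdec
  have hT : (0 : ℝ) < (κ : ℝ) := by exact_mod_cast hκ1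
  have hT1 : (1 : ℝ) ≤ (κ : ℝ) := by exact_mod_cast hκ1
  obtain ⟨m, hm⟩ : ∃ m, m = ⌈2 * (κ : ℝ) / δ⌉₊ := ⟨_, rfl⟩
  have hm1 : 2 * (κ : ℝ) / δ ≤ (m : ℝ) := by rw [hm]; exact Nat.le_ceil _
  have hm0' : (0 : ℝ) < m := lt_of_lt_of_le (by positivity) hm1
  have hm0 : 0 < m := by exact_mod_cast hm0'
  have hm2 : (m : ℝ) ≤ A * (κ : ℝ) := by
    have : (m : ℝ) < 2 * (κ : ℝ) / δ + 1 := by rw [hm]; exact Nat.ceil_lt_add_one (by positivity)
    have e1 : A * (κ : ℝ) = 2 * (κ : ℝ) / δ + (κ : ℝ) := by rw [hA]; ring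
    linarith
  have hR1 : (1 : ℝ) ≤ D + Real.logb 2 (t + 2) := by
    have := one_le_logb t
    have hD0 : (0 : ℝ) ≤ D := Nat.cast_nonneg D
    linarith
  by_cases hn : n < 8 * m
  · refine le_trans ?_ hR1
    rw [div_le_one hT]
    calc min (c1 / (4 * A)) (1 / (8 * A)) * n ≤ 1 / (8 * A) * (8 * m) := by
          apply mul_le_mul (min_le_right _ _) _ (Nat.cast_nonneg _) (by positivity)
          exact_mod_cast hn.le
      _ ≤ 1 / (8 * A) * (8 * (A * (κ : ℝ))) := by gcongr
      _ = (κ : ℝ) := by field_simp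
  · push Not at hn
    obtain ⟨N', hN'⟩ : ∃ N', N' = n / (2 * m) := ⟨_, rfl⟩
    have h4 : 4 ≤ N' := by
      rw [hN', Nat.le_div_iff_mul_le (by omega)]
      omega
    obtain ⟨N, hN⟩ : ∃ N, N' = N + 1 := ⟨N' - 1, by omega⟩
    have hle : 2 * (N + 1) * m ≤ n := by
      have : N' * (2 * m) ≤ n := by rw [hN']; exact Nat.div_mul_le_self _ _
      rw [hN] at this
      calc 2 * (N + 1) * m = (N + 1) * (2 * m) := by ring
        _ ≤ n := this
    obtain ⟨q, hq⟩ : ∃ q, 2 * (N + 1) * m + q = n := ⟨n - 2 * (N + 1) * m, by omega⟩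
    obtain ⟨e, he1, he2, he3, he4⟩ := exists_place hq
    have hbip := bip_enc e he1 he2 he3 he4
    have hacc : ∀ x, accProb p C x = ∑ ω, p ω * (if (C ω).eval x = true then 1 else 0) := by
      intro x
      unfold accProb
      apply Finset.sum_congr rfl
      intro ω _
      split_ifs <;> ring
    have hmain := hB N m t D κ (by omega) hm0 (by
      rw [div_le_iff₀ hm0']
      rw [div_le_iff₀ hδ] at hm1
      linarith) _ (gspec e) Ω p hp hp1 C ht hκ hD θ (by
        intro z hz
        rw [← hacc]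
        apply hyes _ (hbip z)
        apply hasPM_enc
        intro b
        rcases hz b with h | ⟨g, h⟩
        · rw [h]; exact BPM_true
        · rw [h, BPM_act]; exact BPM_mX _) (by
        intro z hz
        rw [← hacc]
        apply hno _ (hbip z)
        intro hpm
        obtain ⟨b, g, y, hb⟩ := hz
        have := of_hasPM_enc e z hpm b
        rw [hb, BPM_act] at this
        exact not_BPM_mY y this)
    refine le_trans ?_ hmain
    have hNn : (n : ℝ) ≤ 4 * m * N := by
      have h1 : n < (N' + 1) * (2 * m) := by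
        rw [hN']
        exact Nat.lt_mul_of_div_lt (Nat.lt_succ_self _) (by omega)
      have h2 : (N' + 1) * (2 * m) ≤ 4 * m * N := by
        rw [hN]
        have : (N + 1 + 1) * 2 ≤ 4 * N := by omega
        calc (N + 1 + 1) * (2 * m) = (N + 1 + 1) * 2 * m := by ring
          _ ≤ 4 * N * m := Nat.mul_le_mul_right _ this
          _ = 4 * m * N := by ring
      have h3 : n ≤ 4 * m * N := by omega
      exact_mod_cast h3
    rw [div_le_iff₀ hT]
    calc min (c1 / (4 * A)) (1 / (8 * A)) * n ≤ c1 / (4 * A) * (4 * m * N) := by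
          apply mul_le_mul (min_le_left _ _) hNn (Nat.cast_nonneg _) (by positivity)
      _ ≤ c1 / (4 * A) * (4 * (A * (κ : ℝ)) * N) := by gcongr
      _ = c1 * N * (κ : ℝ) := by field_simp

end Pool.Agent.W2helper22.AL
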