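import Pool.Agent.W2helper22.AL.Asm
import Pool.Agent.W2helper85.AL_REAL
import Pool.Agent.W2helper68.AL.THR
import Pool.Agent.W2helper19.AL.Neg
import Pool.Agent.W2helper98.AL.Dual

/-! Every circuit can be rebuilt with `t l` NOT gates of nesting level `l + 1` (the levels being
`1, …, h`) if `∏ (t l + 1)` is greater than the number of inputs. -/

set_option autoImplicit false

namespace Pool.Agent.W2helper22.AL

open Finset Pool.Agent.W2helper76.RW

open Classical in
/-- **Upper bound.** The inputs are counted by thresholds; in each of `h` layers `t l` NOT gates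
determine the position of the number of the true inputs within an interval which is shorter by the
factor `t l + 1`; negated inputs come from the thresholds of the other inputs. -/
theorem upper {I : Type} [Fintype I] (C : Circuit I) (h : ℕ) (t : ℕ → ℕ)
    (hN : Fintype.card I + 1 ≤ ∏ l ∈ range h, (t l + 1)) :
    ∃ (C' : Circuit I) (lev : Fin C'.s → ℕ), (∀ x, C'.eval x = C.eval x) ∧
      C'.s ≤ 2 * C.s + 8 * (Fintype.card I + 2) ^ 3 +
        8 * (Fintype.card I + 2 + ∑ l ∈ range h, t l) * (h + 1) ∧ Nesting C' h lev ∧
      ∀ l < h, (univ.filter (fun i => C'.IsNot i ∧ lev i = l + 1)).card ≤ t l :=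
  upper_of W2helper85.AL.real W2helper68.AL.thr_ok W2helper19.AL.neg W2helper98.AL.dual_av C h t hN

end Pool.Agent.W2helper22.AL
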