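import Pool.Agent.W2helper58.NT.Num
import Pool.Agent.W2helper58.NT.Fun
import Pool.Agent.W2helper22.AL.Chain

/-! The hard distributions for `AnyMatching`, with a bound `κ` for the number of changes of the tests
along increasing chains. The proofs are those of `Pool.Agent.W2helper58.NT.any_hard` and
`Pool.Agent.W2helper58.NT.any_hard_all`, with `avg_chainD` in place of `avg_chain`. -/

set_option linter.unusedSectionVars false
set_option linter.unusedVariables false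
set_option autoImplicit false

namespace Pool.Agent.W2helper22.AL

open Finset Pool.Agent.H560R2 Pool.Agent.W2helper58 Pool.Agent.W2helper58.NT

open Classical in
theorem any_hardD (n e w lam : ℕ) (hw : 1 ≤ w) (he : e < Nat.log 2 n) (hn : 2 ^ e < 2 ^ lam)
    (hbig : 2 ^ 59 * (lam + 1) ^ 8 * w ^ 8 ≤ 2 ^ e) (hM : 0 < n / Nat.log 2 n / (2 ^ e) ^ 2) :
    ∃ (Λ : Type) (_ : Fintype Λ) (_ : Nonempty Λ) (yes no : Λ → (Fin n → Bool)),
      (∀ l, AnyMatching n (yes l)) ∧ (∀ l, ¬ AnyMatching n (no l)) ∧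
      ∀ (s : ℕ) (T : Finset (Fin s)) (ar : Fin s → ℕ) (a : ∀ i, Fin (ar i) → Fin n ⊕ Fin s)
        (op : ∀ i, (Fin (ar i) → ℝ) → ℝ) (θ : ∀ i, Fin (ar i) → ℝ)
        (val : (Fin n → Bool) → Fin s → ℝ) (o : Fin s) (τ : ℝ)
        (_ : ∀ i j m, a i j = Sum.inr m → m < i)
        (_ : ∀ i ∉ T, ar i ≤ 2 ∧ Monotone (op i))
        (_ : ∀ i ∈ T, ∀ z z' : Fin (ar i) → ℝ, (∀ j, θ i j ≤ z j ↔ θ i j ≤ z' j) →
          op i z = op i z')
        (_ : ∀ x i, val x i = op i (fun j => Sum.elim (bit x) (val x) (a i j)))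
        (_ : s + ∑ i ∈ T, ar i ≤ 2 ^ w) (κ : ℕ)
        (_ : ∀ x : ℕ → Fin n → Bool, (∀ i, x i ≤ x (i + 1)) → ∀ J : Finset ℕ,
          (∀ i ∈ J, ∃ t ∈ T, ∃ j, ¬ (prb a θ val (x i) t j ↔ prb a θ val (x (i + 1)) t j)) →
            J.card ≤ κ),
        ((univ.filter (fun l : Λ => τ ≤ val (yes l) o)).card : ℝ) / Fintype.card Λ ≤
          ((univ.filter (fun l : Λ => τ ≤ val (no l) o)).card : ℝ) / Fintype.card Λ +
            (κ : ℝ) / ((n / Nat.log 2 n / (2 ^ e) ^ 2 : ℕ) : ℝ) +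
              1 / w := by
  have hk : 0 < 2 ^ e := by positivity
  obtain ⟨Ng, hNg, hNgne, sn, hsn, hA⟩ := match_avg (n := 2 ^ e) w lam hw hn hbig
  have hMne : Nonempty (Fin (n / Nat.log 2 n / (2 ^ e) ^ 2)) := ⟨⟨0, hM⟩⟩
  refine ⟨Fin (n / Nat.log 2 n / (2 ^ e) ^ 2) × (Fin (n / Nat.log 2 n / (2 ^ e) ^ 2) → Ng) ×
    Equiv.Perm (Fin (2 ^ e)), inferInstance,
    inferInstance, yesD (locS n e) pgr sn, noD (locS n e) sn, ?_, ?_, ?_⟩
  · intro l
    unfold yesD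
    rw [anyMatching_Es he]
    refine ⟨l.1, l.2.2, fun u => ?_⟩
    rw [Function.update_self]
    exact mem_pgr.mpr rfl
  · intro l
    unfold noD
    rw [anyMatching_Es he]
    rintro ⟨J, σ, h⟩
    by_cases hJ : J.val < l.1 + 1
    · apply hsn (l.2.1 J) σ
      intro e he
      have h1 := h e.1
      simp only [stS, hJ, if_true] at h1
      rw [mem_pgr] at he
      have h2 : (e.1, σ e.1) = e := Prod.ext rfl he
      rw [h2] at h1
      exact h1
    · have h1 := h ⟨0, hk⟩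
      simp only [stS, hJ, if_false] at h1
      exact h1
  · intro s T ar a op θ val o τ htop hmon hT hval hS κ hκ
    have hh := avg_chainD (T := T) (w := ar) (a := a) (op := op) (θ := θ) (val := val) hA hM
      (locS n e) htop hmon hT hval hS κ hκ o τ
    convert hh using 2

open Classical in
theorem any_hard_allD (n w : ℕ) (hn : 2 ≤ n) (hw : 1 ≤ w) :
    ∃ (Λ : Type) (_ : Fintype Λ) (_ : Nonempty Λ) (yes no : Λ → (Fin n → Bool)),
      (∀ l, AnyMatching n (yes l)) ∧ (∀ l, ¬ AnyMatching n (no l)) ∧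
      ∀ (s : ℕ) (T : Finset (Fin s)) (ar : Fin s → ℕ) (a : ∀ i, Fin (ar i) → Fin n ⊕ Fin s)
        (op : ∀ i, (Fin (ar i) → ℝ) → ℝ) (θ : ∀ i, Fin (ar i) → ℝ)
        (val : (Fin n → Bool) → Fin s → ℝ) (o : Fin s) (τ : ℝ)
        (_ : ∀ i j m, a i j = Sum.inr m → m < i)
        (_ : ∀ i ∉ T, ar i ≤ 2 ∧ Monotone (op i))
        (_ : ∀ i ∈ T, ∀ z z' : Fin (ar i) → ℝ, (∀ j, θ i j ≤ z j ↔ θ i j ≤ z' j) →
          op i z = op i z')
        (_ : ∀ x i, val x i = op i (fun j => Sum.elim (bit x) (val x) (a i j)))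
        (_ : s + ∑ i ∈ T, ar i ≤ 2 ^ w) (κ : ℕ)
        (_ : ∀ x : ℕ → Fin n → Bool, (∀ i, x i ≤ x (i + 1)) → ∀ J : Finset ℕ,
          (∀ i ∈ J, ∃ t ∈ T, ∃ j, ¬ (prb a θ val (x i) t j ↔ prb a θ val (x (i + 1)) t j)) →
            J.card ≤ κ),
        ((univ.filter (fun l : Λ => τ ≤ val (yes l) o)).card : ℝ) / Fintype.card Λ ≤
          ((univ.filter (fun l : Λ => τ ≤ val (no l) o)).card : ℝ) / Fintype.card Λ +
            (((2 : ℝ) ^ 140) ^ 2 * ((κ + 1 : ℕ) : ℝ) *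
              ((w : ℝ) * (Nat.log 2 w + 1)) ^ 16 * Nat.log 2 n / n + 1 / w) := by
  obtain ⟨e, he1, he2⟩ := params2 w hw
  obtain ⟨X, hX⟩ : ∃ X, X = (w * (Nat.log 2 w + 1)) ^ 16 := ⟨_, rfl⟩
  rw [← hX] at he2
  have hXR : ((w : ℝ) * (Nat.log 2 w + 1)) ^ 16 = (X : ℝ) := by rw [hX]; push_cast; ring
  have hnR : (0 : ℝ) < n := by
    have : 0 < n := by omega
    exact_mod_cast this
  have hwR : (0 : ℝ) < w := by exact_mod_cast hw
  rw [hXR]
  by_cases hc : Nat.log 2 n ≤ e ∨ n / Nat.log 2 n / (2 ^ e) ^ 2 = 0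
  · have hb := bad hn he2 hc
    refine ⟨Unit, inferInstance, inferInstance, fun _ _ => true, fun _ _ => false,
      fun _ => any_true hn, fun _ => not_any_false, ?_⟩
    intro s T ar a op θ val o τ _ _ _ _ _ κ _
    have h1 : (1 : ℝ) ≤ ((κ + 1 : ℕ) : ℝ) := by
      have : 1 ≤ κ + 1 := by omega
      exact_mod_cast this
    have h2 : (n : ℝ) ≤ ((2 : ℝ) ^ 140) ^ 2 * X * Nat.log 2 n := by
      have h3 : ((n : ℕ) : ℝ) ≤ (((2 ^ 140) ^ 2 * X * Nat.log 2 n : ℕ) : ℝ) := by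
        exact_mod_cast hb
      refine h3.trans (le_of_eq ?_)
      rw [Nat.cast_mul, Nat.cast_mul, Nat.cast_pow, Nat.cast_pow, Nat.cast_ofNat]
    have h4 : (1 : ℝ) ≤ ((2 : ℝ) ^ 140) ^ 2 * ((κ + 1 : ℕ) : ℝ) * X *
        Nat.log 2 n / n := by
      rw [le_div_iff₀ hnR, one_mul]
      refine h2.trans ?_
      have h5 : (0 : ℝ) ≤ ((2 : ℝ) ^ 140) ^ 2 * X * Nat.log 2 n := by positivity
      calc ((2 : ℝ) ^ 140) ^ 2 * X * Nat.log 2 n = (((2 : ℝ) ^ 140) ^ 2 * X * Nat.log 2 n) * 1 := by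
            ring
        _ ≤ (((2 : ℝ) ^ 140) ^ 2 * X * Nat.log 2 n) * ((κ + 1 : ℕ) : ℝ) :=
            mul_le_mul_of_nonneg_left h1 h5
        _ = _ := by ring
    have h6 : ((univ.filter (fun l : Unit => τ ≤ val ((fun (_ : Unit) (_ : Fin n) => true) l) o)).card : ℝ) /
        Fintype.card Unit ≤ 1 := by
      rw [div_le_one (by simp)]
      exact_mod_cast (Finset.card_filter_le _ _).trans_eq Finset.card_univ
    have h7 : (0 : ℝ) ≤ ((univ.filter (fun l : Unit =>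
        τ ≤ val ((fun (_ : Unit) (_ : Fin n) => false) l) o)).card : ℝ) / Fintype.card Unit := by
      positivity
    have h8 : (0 : ℝ) < 1 / w := by positivity
    linarith
  · push Not at hc
    have hM : 0 < n / Nat.log 2 n / (2 ^ e) ^ 2 := Nat.pos_of_ne_zero hc.2
    have hg := good hn he2 hM
    obtain ⟨Λ, hΛ, hΛne, yes, no, hyes, hno, hadv⟩ :=
      any_hardD n e w (e + 1) hw hc.1 (Nat.pow_lt_pow_right (by norm_num) (by omega)) he1 hM
    refine ⟨Λ, hΛ, hΛne, yes, no, hyes, hno, ?_⟩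
    intro s T ar a op θ val o τ htop hmon hT hval hS κ hκ
    refine (hadv s T ar a op θ val o τ htop hmon hT hval hS κ hκ).trans ?_
    rw [add_assoc]
    refine add_le_add le_rfl (add_le_add ?_ le_rfl)
    have hMR : (0 : ℝ) < ((n / Nat.log 2 n / (2 ^ e) ^ 2 : ℕ) : ℝ) := by exact_mod_cast hM
    refine le_trans (div_le_div_of_nonneg_right (show (κ : ℝ) ≤ ((κ + 1 : ℕ) : ℝ) by
      exact_mod_cast Nat.le_succ κ) hMR.le) ?_
    rw [div_le_div_iff₀ hMR hnR]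
    have h2 : (n : ℝ) ≤ ((2 : ℝ) ^ 140) ^ 2 * X * Nat.log 2 n *
        ((n / Nat.log 2 n / (2 ^ e) ^ 2 : ℕ) : ℝ) := by
      have h3 : ((n : ℕ) : ℝ) ≤ (((2 ^ 140) ^ 2 * X * Nat.log 2 n *
        (n / Nat.log 2 n / (2 ^ e) ^ 2) : ℕ) : ℝ) := by exact_mod_cast hg
      refine h3.trans (le_of_eq ?_)
      rw [Nat.cast_mul, Nat.cast_mul, Nat.cast_mul, Nat.cast_pow, Nat.cast_pow, Nat.cast_ofNat]
    have h5 : (0 : ℝ) ≤ ((κ + 1 : ℕ) : ℝ) := by positivity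
    calc ((κ + 1 : ℕ) : ℝ) * n ≤ ((κ + 1 : ℕ) : ℝ) *
          (((2 : ℝ) ^ 140) ^ 2 * X * Nat.log 2 n *
            ((n / Nat.log 2 n / (2 ^ e) ^ 2 : ℕ) : ℝ)) := mul_le_mul_of_nonneg_left h2 h5
      _ = _ := by ring

end Pool.Agent.W2helper22.AL
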