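import Pool.Agent.H560R2.Sum5

/-! Nesting levels of test gates, and the number of changes of the tests along increasing chains. -/

set_option linter.unusedSectionVars false
set_option linter.unusedVariables false
set_option autoImplicit false

namespace Pool.Agent.W2helper22.AL

open Finset Pool.Agent.H560R2

section

variable {I : Type} {s : ℕ} {T : Finset (Fin s)} {w : Fin s → ℕ}
  {a : ∀ i, Fin (w i) → I ⊕ Fin s}
  {op : ∀ i, (Fin (w i) → ℝ) → ℝ} {θ : ∀ i, Fin (w i) → ℝ} {val : (I → Bool) → Fin s → ℝ}
  {lev : Fin s → ℕ}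

/-- gates outside `T` are monotone as long as the tests of lower level do not change -/
lemma val_level (htop : ∀ i j k, a i j = Sum.inr k → k < i)
    (hmon : ∀ i ∉ T, w i ≤ 2 ∧ Monotone (op i))
    (hT : ∀ i ∈ T, ∀ z z' : Fin (w i) → ℝ, (∀ j, θ i j ≤ z j ↔ θ i j ≤ z' j) → op i z = op i z')
    (hval : ∀ x i, val x i = op i (fun j => Sum.elim (bit x) (val x) (a i j)))
    (hlev : ∀ i j k, a i j = Sum.inr k → lev k ≤ lev i ∧ (k ∈ T → lev k < lev i))
    {x y : I → Bool} (hxy : x ≤ y) {l : ℕ}
    (hsame : ∀ i ∈ T, lev i < l → ∀ j, (prb a θ val x i j ↔ prb a θ val y i j)) :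
    ∀ (m : ℕ) (i : Fin s), i.val = m → i ∉ T → lev i ≤ l → val x i ≤ val y i := by
  intro m
  induction m using Nat.strong_induction_on with
  | _ m ih =>
    intro i hi hiT hli
    rw [hval x i, hval y i]
    apply (hmon i hiT).2
    intro j
    show Sum.elim (bit x) (val x) (a i j) ≤ Sum.elim (bit y) (val y) (a i j)
    rcases hk : a i j with p | k
    · exact bit_mono hxy p
    · show val x k ≤ val y k
      have hki : k.val < i.val := htop i j k hk
      have hl := hlev i j k hk
      by_cases hkT : k ∈ T
      · have hlk := hl.2 hkT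
        have : val x k = val y k := by
          rw [hval x k, hval y k]
          exact hT k hkT _ _ (hsame k hkT (by omega))
        exact this.le
      · exact ih k.val (by omega) k rfl hkT (by omega)

/-- the tests of level `l` are monotone as long as the tests of lower level do not change -/
lemma prb_level (htop : ∀ i j k, a i j = Sum.inr k → k < i)
    (hmon : ∀ i ∉ T, w i ≤ 2 ∧ Monotone (op i))
    (hT : ∀ i ∈ T, ∀ z z' : Fin (w i) → ℝ, (∀ j, θ i j ≤ z j ↔ θ i j ≤ z' j) → op i z = op i z')
    (hval : ∀ x i, val x i = op i (fun j => Sum.elim (bit x) (val x) (a i j)))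
    (hlev : ∀ i j k, a i j = Sum.inr k → lev k ≤ lev i ∧ (k ∈ T → lev k < lev i))
    {x y : I → Bool} (hxy : x ≤ y) {l : ℕ}
    (hsame : ∀ i ∈ T, lev i < l → ∀ j, (prb a θ val x i j ↔ prb a θ val y i j))
    {i : Fin s} (hiT : i ∈ T) (hl : lev i ≤ l) (j : Fin (w i)) (h : prb a θ val x i j) :
    prb a θ val y i j := by
  unfold prb at h ⊢
  refine h.trans ?_
  rcases hk : a i j with p | k
  · exact bit_mono hxy p
  · show val x k ≤ val y k
    have hlk := hlev i j k hk
    by_cases hkT : k ∈ T
    · have h1 := hlk.2 hkT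
      have : val x k = val y k := by
        rw [hval x k, hval y k]
        exact hT k hkT _ _ (hsame k hkT (by omega))
      exact this.le
    · exact val_level htop hmon hT hval hlev hxy hsame k.val k rfl hkT (by omega)

/-- the number of tests of level `l` -/
def tot (T : Finset (Fin s)) (w : Fin s → ℕ) (lev : Fin s → ℕ) (l : ℕ) : ℕ :=
  ∑ i ∈ T.filter (fun i => lev i = l), w i

open Classical in
/-- the number of tests of level `l` with answer yes -/
noncomputable def cnt (T : Finset (Fin s)) (a : ∀ i, Fin (w i) → I ⊕ Fin s)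
    (θ : ∀ i, Fin (w i) → ℝ) (val : (I → Bool) → Fin s → ℝ) (lev : Fin s → ℕ) (x : I → Bool)
    (l : ℕ) : ℕ :=
  ∑ i ∈ T.filter (fun i => lev i = l), (univ.filter (fun j => prb a θ val x i j)).card

/-- the rank -/
noncomputable def rkL (T : Finset (Fin s)) (a : ∀ i, Fin (w i) → I ⊕ Fin s)
    (θ : ∀ i, Fin (w i) → ℝ) (val : (I → Bool) → Fin s → ℝ) (lev : Fin s → ℕ) (x : I → Bool) :
    ℕ → ℕ
  | 0 => 0
  | m + 1 => rkL T a θ val lev x m * (tot T w lev m + 1) + cnt T a θ val lev x m

lemma cnt_le (x : I → Bool) (l : ℕ) : cnt T a θ val lev x l ≤ tot T w lev l := by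
  classical
  unfold cnt tot
  refine Finset.sum_le_sum fun i _ => ?_
  refine (Finset.card_filter_le _ _).trans ?_
  rw [Finset.card_univ, Fintype.card_fin]

lemma rkL_lt (x : I → Bool) : ∀ m, rkL T a θ val lev x m < ∏ l ∈ range m, (tot T w lev l + 1) := by
  intro m
  induction m with
  | zero => simp [rkL]
  | succ m ih =>
    rw [Finset.prod_range_succ]
    show rkL T a θ val lev x m * (tot T w lev m + 1) + cnt T a θ val lev x m < _
    have h1 := cnt_le (T := T) (a := a) (θ := θ) (val := val) (lev := lev) x m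
    calc rkL T a θ val lev x m * (tot T w lev m + 1) + cnt T a θ val lev x m
        < rkL T a θ val lev x m * (tot T w lev m + 1) + (tot T w lev m + 1) := by omega
      _ = (rkL T a θ val lev x m + 1) * (tot T w lev m + 1) := by ring
      _ ≤ _ := Nat.mul_le_mul_right _ ih

lemma rkL_mono (htop : ∀ i j k, a i j = Sum.inr k → k < i)
    (hmon : ∀ i ∉ T, w i ≤ 2 ∧ Monotone (op i))
    (hT : ∀ i ∈ T, ∀ z z' : Fin (w i) → ℝ, (∀ j, θ i j ≤ z j ↔ θ i j ≤ z' j) → op i z = op i z')
    (hval : ∀ x i, val x i = op i (fun j => Sum.elim (bit x) (val x) (a i j)))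
    (hlev : ∀ i j k, a i j = Sum.inr k → lev k ≤ lev i ∧ (k ∈ T → lev k < lev i))
    {x y : I → Bool} (hxy : x ≤ y) : ∀ m, rkL T a θ val lev x m < rkL T a θ val lev y m ∨
      (rkL T a θ val lev x m = rkL T a θ val lev y m ∧
        ∀ i ∈ T, lev i < m → ∀ j, (prb a θ val x i j ↔ prb a θ val y i j)) := by
  classical
  intro m
  induction m with
  | zero => exact Or.inr ⟨rfl, fun i _ h => absurd h (Nat.not_lt_zero _)⟩
  | succ m ih =>
    show rkL T a θ val lev x m * (tot T w lev m + 1) + cnt T a θ val lev x m <
        rkL T a θ val lev y m * (tot T w lev m + 1) + cnt T a θ val lev y m ∨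
      (rkL T a θ val lev x m * (tot T w lev m + 1) + cnt T a θ val lev x m =
        rkL T a θ val lev y m * (tot T w lev m + 1) + cnt T a θ val lev y m ∧ _)
    rcases ih with h | ⟨h, hsame⟩
    · left
      have h1 := cnt_le (T := T) (a := a) (θ := θ) (val := val) (lev := lev) x m
      have h2 : (rkL T a θ val lev x m + 1) * (tot T w lev m + 1) ≤
          rkL T a θ val lev y m * (tot T w lev m + 1) := Nat.mul_le_mul_right _ h
      have h3 : (rkL T a θ val lev x m + 1) * (tot T w lev m + 1) =
          rkL T a θ val lev x m * (tot T w lev m + 1) + (tot T w lev m + 1) := by ring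
      omega
    · have hsub : ∀ i ∈ T.filter (fun i => lev i = m),
          (univ.filter (fun j => prb a θ val x i j)) ⊆ (univ.filter (fun j => prb a θ val y i j)) := by
        intro i hi j hj
        rw [Finset.mem_filter] at hi hj ⊢
        exact ⟨mem_univ _, prb_level htop hmon hT hval hlev hxy hsame hi.1 hi.2.le j hj.2⟩
      have hle : ∀ i ∈ T.filter (fun i => lev i = m),
          (univ.filter (fun j => prb a θ val x i j)).card ≤
            (univ.filter (fun j => prb a θ val y i j)).card :=
        fun i hi => Finset.card_le_card (hsub i hi)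
      have hc : cnt T a θ val lev x m ≤ cnt T a θ val lev y m := Finset.sum_le_sum hle
      rcases hc.lt_or_eq with hlt | heq
      · left
        rw [h]
        omega
      · right
        refine ⟨by rw [h, heq], fun i hi hl j => ?_⟩
        rcases Nat.lt_succ_iff_lt_or_eq.mp hl with h1 | h1
        · exact hsame i hi h1 j
        · have hi' : i ∈ T.filter (fun i => lev i = m) := Finset.mem_filter.mpr ⟨hi, h1⟩
          have h2 := (Finset.sum_eq_sum_iff_of_le hle).mp heq i hi'
          have h3 := Finset.eq_of_subset_of_card_le (hsub i hi') h2.ge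
          constructor
          · intro h4
            have : j ∈ univ.filter (fun j => prb a θ val y i j) := by
              rw [← h3]
              exact Finset.mem_filter.mpr ⟨mem_univ _, h4⟩
            exact (Finset.mem_filter.mp this).2
          · intro h4
            have : j ∈ univ.filter (fun j => prb a θ val x i j) := by
              rw [h3]
              exact Finset.mem_filter.mpr ⟨mem_univ _, h4⟩
            exact (Finset.mem_filter.mp this).2

/-- with nesting levels the tests change less than `∏ (tot l + 1)` times along a chain -/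
theorem changes_levels (htop : ∀ i j k, a i j = Sum.inr k → k < i)
    (hmon : ∀ i ∉ T, w i ≤ 2 ∧ Monotone (op i))
    (hT : ∀ i ∈ T, ∀ z z' : Fin (w i) → ℝ, (∀ j, θ i j ≤ z j ↔ θ i j ≤ z' j) → op i z = op i z')
    (hval : ∀ x i, val x i = op i (fun j => Sum.elim (bit x) (val x) (a i j)))
    (hlev : ∀ i j k, a i j = Sum.inr k → lev k ≤ lev i ∧ (k ∈ T → lev k < lev i))
    {h : ℕ} (hh : ∀ i ∈ T, lev i < h)
    (x : ℕ → I → Bool) (hx : ∀ i, x i ≤ x (i + 1)) (J : Finset ℕ)
    (hJ : ∀ i ∈ J, ∃ t ∈ T, ∃ j, ¬ (prb a θ val (x i) t j ↔ prb a θ val (x (i + 1)) t j)) :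
    J.card + 1 ≤ ∏ l ∈ range h, (tot T w lev l + 1) := by
  classical
  have hpos : 0 < ∏ l ∈ range h, (tot T w lev l + 1) :=
    Finset.prod_pos fun l _ => Nat.succ_pos _
  let pr : (I → Bool) → (∀ t : Fin s, Fin (w t) → Prop) := fun x t j => t ∈ T ∧ prb a θ val x t j
  have hprne : ∀ x x', pr x ≠ pr x' ↔
      ∃ i ∈ T, ∃ j, ¬ (prb a θ val x i j ↔ prb a θ val x' i j) := by
    intro x x'
    constructor
    · intro h
      by_contra hcon
      push Not at hcon
      apply h
      funext t j
      simp only [pr]
      by_cases ht : t ∈ T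
      · have := hcon t ht j
        simp only [ht, true_and]
        exact propext (by tauto)
      · simp only [ht, false_and]
    · rintro ⟨i, hi, j, h⟩ heq
      have := congrFun (congrFun heq i) j
      simp only [pr, hi, true_and] at this
      exact h (by rw [this])
  have key := changes_rk (M := J.sup id + 1) pr (fun x => rkL T a θ val lev x h)
    (∏ l ∈ range h, (tot T w lev l + 1) - 1)
    (fun x x' hxx' => by
      rcases rkL_mono htop hmon hT hval hlev hxx' h with h1 | h1
      · exact h1.le
      · exact h1.1.le)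
    (fun x x' hxx' hne => by
      rcases rkL_mono htop hmon hT hval hlev hxx' h with h1 | ⟨_, h1⟩
      · exact h1
      · exfalso
        obtain ⟨i, hi, j, hj⟩ := (hprne x x').mp hne
        exact hj (h1 i hi (hh i hi) j))
    (fun x => by
      have h1 := rkL_lt (T := T) (a := a) (θ := θ) (val := val) (lev := lev) x h
      omega)
    x (fun i _ => hx i) J
    (fun i hi => ⟨Nat.lt_succ_of_le (Finset.le_sup (f := id) hi), (hprne _ _).mpr (hJ i hi)⟩)
  omega

/-- without nesting levels: the tests change less than `∏ (w i + 1)` times along a chain -/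
theorem changes_tests (htop : ∀ i j k, a i j = Sum.inr k → k < i)
    (hmon : ∀ i ∉ T, w i ≤ 2 ∧ Monotone (op i))
    (hT : ∀ i ∈ T, ∀ z z' : Fin (w i) → ℝ, (∀ j, θ i j ≤ z j ↔ θ i j ≤ z' j) → op i z = op i z')
    (hval : ∀ x i, val x i = op i (fun j => Sum.elim (bit x) (val x) (a i j)))
    (x : ℕ → I → Bool) (hx : ∀ i, x i ≤ x (i + 1)) (J : Finset ℕ)
    (hJ : ∀ i ∈ J, ∃ t ∈ T, ∃ j, ¬ (prb a θ val (x i) t j ↔ prb a θ val (x (i + 1)) t j)) :
    J.card + 1 ≤ ∏ i ∈ T, (w i + 1) := by
  classical
  have hTf : T.filter (fun i => i.val < s) = T :=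
    Finset.filter_true_of_mem (fun i _ => i.isLt)
  have hpos : 0 < ∏ i ∈ T, (w i + 1) :=
    Finset.prod_pos fun l _ => Nat.succ_pos _
  let pr : (I → Bool) → (∀ t : Fin s, Fin (w t) → Prop) := fun x t j => t ∈ T ∧ prb a θ val x t j
  have hprne : ∀ x x', pr x ≠ pr x' ↔
      ∃ i ∈ T, ∃ j, ¬ (prb a θ val x i j ↔ prb a θ val x' i j) := by
    intro x x'
    constructor
    · intro h
      by_contra hcon
      push Not at hcon
      apply h
      funext t j
      simp only [pr]
      by_cases ht : t ∈ T
      · have := hcon t ht j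
        simp only [ht, true_and]
        exact propext (by tauto)
      · simp only [ht, false_and]
    · rintro ⟨i, hi, j, h⟩ heq
      have := congrFun (congrFun heq i) j
      simp only [pr, hi, true_and] at this
      exact h (by rw [this])
  have key := changes_rk (M := J.sup id + 1) pr (fun x => rk T a θ val x s)
    (∏ i ∈ T, (w i + 1) - 1)
    (fun x x' hxx' => by
      rcases rk_mono htop hmon hT hval hxx' s le_rfl with h1 | h1
      · exact h1.le
      · exact h1.1.le)
    (fun x x' hxx' hne => by
      rcases rk_mono htop hmon hT hval hxx' s le_rfl with h1 | ⟨_, h1, _⟩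
      · exact h1
      · exfalso
        obtain ⟨i, hi, j, hj⟩ := (hprne x x').mp hne
        exact hj (h1 i hi i.isLt j))
    (fun x => by
      have h1 := rk_lt (T := T) (a := a) (θ := θ) (val := val) x s le_rfl
      rw [hTf] at h1
      omega)
    x (fun i _ => hx i) J
    (fun i hi => ⟨Nat.lt_succ_of_le (Finset.le_sup (f := id) hi), (hprne _ _).mpr (hJ i hi)⟩)
  omega

end

end Pool.Agent.W2helper22.AL
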