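import Pool.Agent.W2helper22.AL.Up

/-! Project AL, upper bound: assembly. -/

set_option autoImplicit false

namespace Pool.Agent.W2helper22.AL

open Finset Pool.Agent.W2helper76.RW

section

variable {I : Type} {h s : ℕ} {c : ℕ → ℕ} {F : Set (((I → Bool) → Bool) × ℕ)}

/-- step 2: thresholds of many lists -/
lemma thr_many (hTHR : S_THR) (W : I → List I) (K : ℕ) (hK : ∀ p, (W p).length ≤ K) (hA : Av h s c F) :
    ∀ l : List I, Av h (s + ((2 * (K + 2) + 2) * (K + 1)) * l.length) c
      (F ∪ {q | ∃ p ∈ l, ∃ k, q = (thr (W p) k, 0)}) := by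
  intro l
  induction l with
  | nil => exact hA.mono (by simp) (fun _ => le_rfl) (fun q hq => ⟨q.2, le_rfl, by simpa using hq⟩)
  | cons p l ih =>
    have h1 := hTHR I h _ c _ (W p) ih
    refine h1.mono ?_ (fun _ => le_rfl) (fun q hq => ⟨q.2, le_rfl, ?_⟩)
    · have h2 : (2 * ((W p).length + 2) + 2) * ((W p).length + 1) ≤ (2 * (K + 2) + 2) * (K + 1) := by
        have := hK p
        gcongr
      obtain ⟨B, hB⟩ : ∃ B, B = (2 * (K + 2) + 2) * (K + 1) := ⟨_, rfl⟩
      rw [← hB] at h2 ⊢
      rw [List.length_cons, Nat.mul_succ B l.length]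
      omega
    · rcases hq with hq | ⟨p', hp', k, hk⟩
      · exact Or.inl (Or.inl hq)
      · rcases List.mem_cons.mp hp' with rfl | hp'
        · exact Or.inr ⟨k, hk⟩
        · exact Or.inl (Or.inr ⟨p', hp', k, hk⟩)

/-- the inputs -/
lemma inp_many (hA : Av h s c F) : ∀ l : List I, Av h (s + l.length) c
      (F ∪ {q | ∃ p ∈ l, q = (fun x => x p, 0)}) := by
  intro l
  induction l with
  | nil => exact hA.mono (by simp) (fun _ => le_rfl) (fun q hq => ⟨q.2, le_rfl, by simpa using hq⟩)
  | cons p l ih =>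
    refine (ih.inp p).mono (by rw [List.length_cons]; omega) (fun _ => le_rfl) (fun q hq => ⟨q.2, le_rfl, ?_⟩)
    rcases hq with hq | ⟨p', hp', hk⟩
    · exact Or.inr (Or.inl hq)
    · rcases List.mem_cons.mp hp' with rfl | hp'
      · exact Or.inl hk
      · exact Or.inr (Or.inr ⟨p', hp', hk⟩)

/-- `x p` is false, by comparison of the numbers of ones with and without `p` -/
def part (E W : List I) (j : ℕ) : (I → Bool) → Bool := fun x =>
  decide (∃ k < j, k ≤ W.countP (fun p => x p) ∧ E.countP (fun p => x p) < k + 1)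

lemma part_zero (E W : List I) : part E W 0 = fun _ => false := by
  funext x
  simp [part]

lemma part_succ (E W : List I) (j : ℕ) : part E W (j + 1) =
    fun x => part E W j x || (thr W j x && decide (E.countP (fun p => x p) < j + 1)) := by
  funext x
  unfold part thr
  rw [← Bool.decide_and, ← Bool.decide_or]
  apply decide_eq_decide.mpr
  constructor
  · rintro ⟨k, hk, h1⟩
    rcases Nat.lt_succ_iff_lt_or_eq.mp hk with h2 | h2
    · exact Or.inl ⟨k, h2, h1⟩
    · rw [h2] at h1; exact Or.inr h1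
  · rintro (⟨k, hk, h1⟩ | h1)
    · exact ⟨k, hk.trans (Nat.lt_succ_self _), h1⟩
    · exact ⟨j, Nat.lt_succ_self _, h1⟩

lemma part_av (E W : List I) (hA : Av h s c F) (hW : ∀ k, (thr W k, 0) ∈ F)
    (hE : ∀ k, ((fun x => decide (E.countP (fun p => x p) < k)), h) ∈ F) :
    ∀ j, Av h (s + (1 + 2 * j)) c (insert (part E W j, h) F) := by
  intro j
  induction j with
  | zero =>
    rw [part_zero]
    exact (hA.const false).mono (by omega) (fun _ => le_rfl) (fun q hq => by
      rcases Set.mem_insert_iff.mp hq with rfl | hq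
      · exact ⟨0, Nat.zero_le _, Or.inl rfl⟩
      · exact ⟨q.2, le_rfl, Or.inr hq⟩)
  | succ j ih =>
    have h0 : Av h (s + (1 + 2 * j)) c (insert (thr W j, h) (insert (part E W j, h) F)) :=
      ih.mono le_rfl (fun _ => le_rfl) (fun q hq => by
        rcases Set.mem_insert_iff.mp hq with rfl | hq
        · exact ⟨0, Nat.zero_le _, Or.inr (hW j)⟩
        · exact ⟨q.2, le_rfl, hq⟩)
    have h1 := h0.and (f := thr W j) (g := fun x => decide (E.countP (fun p => x p) < j + 1)) (l := h)
      (Or.inl rfl) (Or.inr (Or.inr (hE (j + 1)))) le_rfl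
    have h2 := h1.or (f := part E W j)
      (g := fun x => thr W j x && decide (E.countP (fun p => x p) < j + 1)) (l := h)
      (Or.inr (Or.inr (Or.inl rfl))) (Or.inl rfl) le_rfl
    rw [part_succ]
    refine h2.mono (by omega) (fun _ => le_rfl) (fun q hq => ⟨q.2, le_rfl, ?_⟩)
    rcases Set.mem_insert_iff.mp hq with rfl | hq
    · exact Or.inl rfl
    · exact Or.inr (Or.inr (Or.inr (Or.inr hq)))

lemma part_many (E : List I) (W : I → List I) (K : ℕ) (hA : Av h s c F)
    (hW : ∀ p k, (thr (W p) k, 0) ∈ F)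
    (hE : ∀ k, ((fun x => decide (E.countP (fun p => x p) < k)), h) ∈ F) :
    ∀ l : List I, Av h (s + (1 + 2 * K) * l.length) c
      (F ∪ {q | ∃ p ∈ l, q = (part E (W p) K, h)}) := by
  intro l
  induction l with
  | nil => exact hA.mono (by simp) (fun _ => le_rfl) (fun q hq => ⟨q.2, le_rfl, by simpa using hq⟩)
  | cons p l ih =>
    have h1 := part_av E (W p) ih (fun k => Or.inl (hW p k)) (fun k => Or.inl (hE k)) K
    refine h1.mono ?_ (fun _ => le_rfl) (fun q hq => ⟨q.2, le_rfl, ?_⟩)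
    · rw [List.length_cons, Nat.mul_succ]
      omega
    · rcases hq with hq | ⟨p', hp', hk⟩
      · exact Or.inr (Or.inl hq)
      · rcases List.mem_cons.mp hp' with rfl | hp'
        · exact Or.inl hk
        · exact Or.inr (Or.inr ⟨p', hp', hk⟩)

end

open Classical in
lemma part_eq {I : Type} [Fintype I] (p : I) :
    part (Finset.univ : Finset I).toList ((Finset.univ : Finset I).toList.erase p)
      (Fintype.card I + 1) = fun x => !(x p) := by
  funext x
  obtain ⟨E, hE⟩ : ∃ E, E = (Finset.univ : Finset I).toList := ⟨_, rfl⟩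
  have hlen : E.length = Fintype.card I := by rw [hE, Finset.length_toList, Finset.card_univ]
  have hp : p ∈ E := by rw [hE, Finset.mem_toList]; exact mem_univ _
  rw [← hE]
  have h1 : E.countP (fun p => x p) = (p :: E.erase p).countP (fun p => x p) :=
    (List.perm_cons_erase hp).countP_eq _
  rw [List.countP_cons] at h1
  have h2 : (E.erase p).countP (fun p => x p) ≤ (E.erase p).length := List.countP_le_length
  have h3 : (E.erase p).length ≤ E.length := List.length_erase_le
  unfold part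
  cases hx : x p with
  | false =>
    rw [hx] at h1
    simp only [Bool.false_eq_true, if_false, add_zero] at h1
    simp only [Bool.not_false, decide_eq_true_eq]
    exact ⟨(E.erase p).countP (fun p => x p), by omega, le_rfl, by omega⟩
  | true =>
    rw [hx] at h1
    simp only [if_true] at h1
    simp only [Bool.not_true, decide_eq_false_iff_not]
    rintro ⟨k, _, h4, h5⟩
    omega

open Classical in
/-- The upper bound: every circuit with inputs `I` can be rewritten with at most `t l` NOT gates of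
nesting level `l + 1`, `l < h`, if `|I| + 1 ≤ ∏ l, (t l + 1)`. -/
theorem upper_of (hREAL : S_REAL) (hTHR : S_THR) (hNEG : S_NEG) (hDUAL : S_DUAL) {I : Type} [Fintype I]
    (C : Circuit I) (h : ℕ) (t : ℕ → ℕ) (hN : Fintype.card I + 1 ≤ ∏ l ∈ range h, (t l + 1)) :
    ∃ (C' : Circuit I) (lev : Fin C'.s → ℕ), (∀ x, C'.eval x = C.eval x) ∧
      C'.s ≤ 2 * C.s + 8 * (Fintype.card I + 2) ^ 3 +
        8 * (Fintype.card I + 2 + ∑ l ∈ range h, t l) * (h + 1) ∧ Nesting C' h lev ∧
      ∀ l < h, (univ.filter (fun i => C'.IsNot i ∧ lev i = l + 1)).card ≤ t l := by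
  obtain ⟨N, hNd⟩ : ∃ N, N = Fintype.card I := ⟨_, rfl⟩
  obtain ⟨E, hE⟩ : ∃ E, E = (Finset.univ : Finset I).toList := ⟨_, rfl⟩
  have hlen : E.length = N := by rw [hE, Finset.length_toList, Finset.card_univ, hNd]
  have hmem : ∀ p, p ∈ E := fun p => by rw [hE, Finset.mem_toList]; exact mem_univ _
  rw [← hNd] at hN ⊢
  -- thresholds
  have a1 := hTHR I h 0 (fun _ => 0) ∅ E Av.empty
  have a2 := thr_many hTHR (fun p => E.erase p) N
    (fun p => hlen ▸ List.length_erase_le) a1 E
  have a3 := hNEG I t h h 0 _ (N + 1) (fun _ => 0) _ (fun x => E.countP (fun p => x p)) (by omega)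
    (fun x => Nat.lt_succ_of_le (hlen ▸ List.countP_le_length)) (by simpa using hN)
    (fun k => Or.inl (Or.inr ⟨k, rfl⟩)) a2
  have a4 := part_many E (fun p => E.erase p) (N + 1) a3
    (fun p k => Or.inl (Or.inr ⟨p, hmem p, k, rfl⟩)) (fun k => by
      refine Or.inr ⟨k, ?_⟩
      rw [Nat.zero_add]) E
  have a5 := inp_many a4 E
  have a6 := hDUAL I h _ _ {q | (∃ p, q = ((fun x => x p), h)) ∨ ∃ p, q = ((fun x => !(x p)), h)} C
    (fun p => Or.inl ⟨p, rfl⟩) (fun p => Or.inr ⟨p, rfl⟩)
    (a5.mono le_rfl (fun _ => le_rfl) (fun q hq => by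
      rcases hq with ⟨p, rfl⟩ | ⟨p, rfl⟩
      · exact ⟨0, Nat.zero_le _, Or.inr ⟨p, hmem p, rfl⟩⟩
      · refine ⟨h, le_rfl, Or.inl (Or.inr ⟨p, hmem p, ?_⟩)⟩
        have := part_eq (I := I) p
        rw [← hE, ← hNd] at this
        rw [this]))
  obtain ⟨L, c', hP, hLh, hLs, hc', hF⟩ := a6
  obtain ⟨i, hi, hiL⟩ := hF _ (Set.mem_insert _ _)
  obtain ⟨C', lev, hev, hs', hnest, hcount⟩ := hREAL I h L c' _ i hP hLh hiL
  refine ⟨C', lev, hev, ?_, hnest, fun l hl => ?_⟩
  · rw [hs']
    refine hLs.trans ?_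
    rw [hlen]
    have e1 : (∑ j ∈ range h, t (0 + j)) = ∑ l ∈ range h, t l := by simp
    rw [e1]
    obtain ⟨S0, hS0⟩ : ∃ S, S = ∑ l ∈ range h, t l := ⟨_, rfl⟩
    rw [← hS0]
    have e2 : (N + 2) ^ 3 = N ^ 3 + 6 * N ^ 2 + 12 * N + 8 := by ring
    rw [e2]
    have e3 : 8 * (N + 1 + 1 + S0) * (h + 1) = 8 * (N + 2 + S0) * (h + 1) := by ring
    rw [e3]
    ring_nf
    nlinarith [Nat.zero_le (N ^ 2), Nat.zero_le (N ^ 3)]
  · refine le_trans (le_of_eq ?_) ((hcount (l + 1)).trans (hc' (l + 1)) |>.trans ?_)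
    · rw [← Set.ncard_coe_finset]
      congr 1
      ext g
      simp
    · simp only [Nat.zero_add]
      rw [if_pos ⟨Nat.succ_pos l, hl⟩]
      simp

end Pool.Agent.W2helper22.AL
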