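import Pool.Agent.W2helper76.RW.PyrDepth
import Pool.Agent.W2helper22.AL.Bool

/-! The pyramid problem: depth against the number of alternations. The proofs are those of
`Pool.Agent.W2helper76.RW` (`chain1`, `pyr_bound`), with the number of alternations in
place of `2 ^ t`, and with higher pyramids. -/

set_option autoImplicit false
set_option linter.unusedSectionVars false

open Finset

namespace Pool.Agent.W2helper22.AL

open Pool.Agent.W2helper76.RW
open Pool.Agent.W2lead.Depth (Var vals Bits AllTops Top Derives MonCircuit al be al_top be_top robust)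
open Pool.Agent.H560R2 (MD pbase PV)

section

variable {X W I : Type} {m : ℕ}

open Classical in
/-- Circuits with few NOT gates yield a monotone formula for one block. -/
theorem chain1D [Fintype X] [Nonempty X] {t D : ℕ} (hm : 0 < m) (a : X → W → Bool)
    (spec : I → Bool ⊕ (Fin m × W))
    {Ω : Type} [Fintype Ω] (p : Ω → ℝ) (hp : ∀ ω, 0 ≤ p ω) (hp1 : ∑ ω, p ω = 1) (C : Ω → Circuit I)
    (ht : ∀ ω, (C ω).numNot ≤ t) {κ : ℕ} (hκ : ∀ ω, Alternates (C ω) κ) (hD : ∀ ω, (C ω).depth (C ω).out ≤ D) {s : ℝ}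
    (hyes : ∀ z : Fin m → W → Bool, (∀ b, z b = (fun _ => true) ∨ ∃ x, z b = a x) →
      s ≤ ∑ ω, p ω * (if (C ω).eval (enc spec z) = true then 1 else 0)) :
    ∃ (ω : Ω) (b : Fin m) (γ : Fin m → X) (F : MF W), F.depth ≤ D + Nat.clog 2 (t + 1) ∧
      (s - (κ : ℝ) / m) * Fintype.card X ≤ ((univ.filter (fun x => F.eval (a x) = true)).card : ℝ) ∧
      ∀ z, F.eval z = true → (C ω).eval (enc spec (Function.update (base1 a b.val γ) b z)) = true := by
  -- the formulas of the windows
  have hwin : ∀ (ω : Ω) (b : Fin m) (γ : Fin m → X), ∃ G : MF W,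
      G.depth ≤ D + Nat.clog 2 (t + 1) ∧
      (∀ x, (if (C ω).eval (enc spec (base1 a (b.val + 1) (Function.update γ b x))) = true then (1 : ℝ) else 0) -
        (if (C ω).Changed ((C ω).depth (C ω).out) (enc spec (base1 a (b.val + 1) (Function.update γ b x)))
          (enc spec (base1 a b.val (Function.update γ b x))) then 1 else 0) ≤
        if G.eval (a x) = true then 1 else 0) ∧
      (∀ z, G.eval z = true →
        (C ω).eval (enc spec (Function.update (base1 a b.val γ) b z)) = true) := by
    intro ω b γ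
    obtain ⟨G, hG1, hG2, hG3⟩ := window (C ω) (ht ω) (hD ω) (phi spec b) (enc spec (base1 a b.val γ))
    refine ⟨G, hG1, ?_, ?_⟩
    · intro x
      have h := hG2 (a x)
      rw [inpt_enc, inpt_enc, base1_update_act, base1_update_true a b γ x] at h
      by_cases h1 : (C ω).Changed ((C ω).depth (C ω).out)
          (enc spec (base1 a (b.val + 1) (Function.update γ b x)))
          (enc spec (base1 a b.val (Function.update γ b x)))
      · rw [if_pos h1]
        have e1 : (if (C ω).eval (enc spec (base1 a (b.val + 1) (Function.update γ b x))) = true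
          then (1 : ℝ) else 0) ≤ 1 := by split_ifs <;> norm_num
        have e2 : (0 : ℝ) ≤ if G.eval (a x) = true then 1 else 0 := by
          split_ifs <;> norm_num
        linarith
      · rw [if_neg h1, sub_zero]
        by_cases h2 : (C ω).eval (enc spec (base1 a (b.val + 1) (Function.update γ b x))) = true
        · rw [if_pos h2, if_pos (h h1 h2)]
        · rw [if_neg h2]
          split_ifs <;> norm_num
    · intro z hz
      have h := hG3 z hz
      rw [inpt_enc] at h
      exact h
  choose G hG1 hG2 hG3 using hwin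
  by_contra hcon
  push Not at hcon
  set Γ : ℝ := (Fintype.card X : ℝ) with hΓ
  have hΓ0 : 0 < Γ := by rw [hΓ]; exact_mod_cast Fintype.card_pos
  set M : ℝ := (Fintype.card (Fin m → X) : ℝ) with hM
  have hM0 : 0 < M := by rw [hM]; exact_mod_cast Fintype.card_pos
  have hm0 : (0 : ℝ) < m := by exact_mod_cast hm
  -- every window accepts few
  have hbad : ∀ ω b γ, ((univ.filter (fun x => (G ω b γ).eval (a x) = true)).card : ℝ) <
      (s - (κ : ℝ) / m) * Γ := by
    intro ω b γ
    by_contra h
    push Not at h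
    obtain ⟨z, hz1, hz2⟩ := hcon ω b γ (G ω b γ) (hG1 ω b γ) h
    exact hz2 (hG3 ω b γ z hz1)
  have hacc : ∀ F : MF W, ((univ.filter (fun x => F.eval (a x) = true)).card : ℝ) =
      ∑ x : X, (if F.eval (a x) = true then (1 : ℝ) else 0) := by
    intro F
    rw [Finset.sum_boole]
  set S : ℝ := ∑ ω, p ω * ∑ b : Fin m, ∑ γ : Fin m → X,
    ((univ.filter (fun x => (G ω b γ).eval (a x) = true)).card : ℝ) with hS
  have hlt : S < (s - (κ : ℝ) / m) * Γ * (m * M) := by
    have hne : ∃ ω, 0 < p ω := by
      by_contra hne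
      push Not at hne
      have : ∑ ω, p ω ≤ 0 := Finset.sum_nonpos (fun ω _ => hne ω)
      linarith
    obtain ⟨ω0, hω0⟩ := hne
    have hin : ∀ ω, ∑ b : Fin m, ∑ γ : Fin m → X,
        ((univ.filter (fun x => (G ω b γ).eval (a x) = true)).card : ℝ) <
          (s - (κ : ℝ) / m) * Γ * (m * M) := by
      intro ω
      have : ∑ b : Fin m, ∑ γ : Fin m → X, (s - (κ : ℝ) / m) * Γ =
          (s - (κ : ℝ) / m) * Γ * (m * M) := by
        rw [Finset.sum_const, Finset.sum_const, Finset.card_univ, Finset.card_univ, nsmul_eq_mul,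
          nsmul_eq_mul, Fintype.card_fin, ← hM]
        ring
      rw [← this]
      have : Nonempty (Fin m) := ⟨⟨0, hm⟩⟩
      apply Finset.sum_lt_sum_of_nonempty Finset.univ_nonempty
      intro b _
      apply Finset.sum_lt_sum_of_nonempty Finset.univ_nonempty
      intro γ _
      exact hbad ω b γ
    calc S < ∑ ω, p ω * ((s - (κ : ℝ) / m) * Γ * (m * M)) := by
          apply Finset.sum_lt_sum
          · intro ω _
            exact mul_le_mul_of_nonneg_left (hin ω).le (hp ω)
          · exact ⟨ω0, mem_univ _, mul_lt_mul_of_pos_left (hin ω0) hω0⟩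
      _ = _ := by rw [← Finset.sum_mul, hp1, one_mul]
  have hY : s * (m * (M * Γ)) - (κ : ℝ) * (M * Γ) ≤ S := by
    have h1 : ∀ ω, ∑ b : Fin m, ∑ γ : Fin m → X, ∑ x : X,
        (if (C ω).eval (enc spec (base1 a (b.val + 1) (Function.update γ b x))) = true then (1 : ℝ) else 0) -
        (κ : ℝ) * (M * Γ) ≤ ∑ b : Fin m, ∑ γ : Fin m → X,
          ((univ.filter (fun x => (G ω b γ).eval (a x) = true)).card : ℝ) := by
      intro ω
      have hch : ∑ b : Fin m, ∑ γ : Fin m → X, ∑ x : X,
          (if (C ω).Changed ((C ω).depth (C ω).out) (enc spec (base1 a (b.val + 1) (Function.update γ b x)))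
          (enc spec (base1 a b.val (Function.update γ b x))) then (1 : ℝ) else 0) ≤
          (κ : ℝ) * (M * Γ) := by
        have e1 : ∀ b : Fin m, ∑ γ : Fin m → X, ∑ x : X,
            (if (C ω).Changed ((C ω).depth (C ω).out) (enc spec (base1 a (b.val + 1) (Function.update γ b x)))
            (enc spec (base1 a b.val (Function.update γ b x))) then (1 : ℝ) else 0) =
            Γ * ∑ γ : Fin m → X, (if (C ω).Changed ((C ω).depth (C ω).out)
              (enc spec (base1 a (b.val + 1) γ)) (enc spec (base1 a b.val γ)) then (1 : ℝ) else 0) :=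
          fun b => resample b (fun γ => if (C ω).Changed ((C ω).depth (C ω).out)
              (enc spec (base1 a (b.val + 1) γ)) (enc spec (base1 a b.val γ)) then (1 : ℝ) else 0)
        rw [Finset.sum_congr rfl (fun b _ => e1 b), ← Finset.mul_sum, Finset.sum_comm]
        have e2 : ∑ γ : Fin m → X, ∑ b : Fin m, (if (C ω).Changed ((C ω).depth (C ω).out)
              (enc spec (base1 a (b.val + 1) γ)) (enc spec (base1 a b.val γ)) then (1 : ℝ) else 0) ≤
            ∑ γ : Fin m → X, (κ : ℝ) :=
          Finset.sum_le_sum (fun γ _ => count_le (hκ ω) _ m (fun b => enc spec (base1 a b γ))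
            (fun b p => enc_mono spec _ _ (base1_anti a b γ) p))
        rw [Finset.sum_const, Finset.card_univ, nsmul_eq_mul, ← hM] at e2
        calc _ ≤ Γ * (M * (κ : ℝ)) := mul_le_mul_of_nonneg_left e2 hΓ0.le
          _ = _ := by ring
      refine le_trans (sub_le_sub_left hch _) ?_
      rw [← Finset.sum_sub_distrib]
      apply Finset.sum_le_sum
      intro b _
      rw [← Finset.sum_sub_distrib]
      apply Finset.sum_le_sum
      intro γ _
      rw [← Finset.sum_sub_distrib, hacc]
      apply Finset.sum_le_sum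
      intro x _
      exact hG2 ω b γ x
    have h2 : s * (m * (M * Γ)) ≤ ∑ ω, p ω * ∑ b : Fin m, ∑ γ : Fin m → X, ∑ x : X,
        (if (C ω).eval (enc spec (base1 a (b.val + 1) (Function.update γ b x))) = true then (1 : ℝ) else 0) := by
      have e1 : ∑ ω, p ω * ∑ b : Fin m, ∑ γ : Fin m → X, ∑ x : X,
          (if (C ω).eval (enc spec (base1 a (b.val + 1) (Function.update γ b x))) = true then (1 : ℝ) else 0) =
          ∑ b : Fin m, ∑ γ : Fin m → X, ∑ x : X, ∑ ω, p ω *
          (if (C ω).eval (enc spec (base1 a (b.val + 1) (Function.update γ b x))) = true then (1 : ℝ) else 0) := by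
        simp only [Finset.mul_sum]
        rw [Finset.sum_comm]
        apply Finset.sum_congr rfl
        intro b _
        rw [Finset.sum_comm]
        apply Finset.sum_congr rfl
        intro γ _
        rw [Finset.sum_comm]
      rw [e1]
      have e2 : s * (m * (M * Γ)) = ∑ b : Fin m, ∑ γ : Fin m → X, ∑ x : X, s := by
        simp only [Finset.sum_const, Finset.card_univ, nsmul_eq_mul, Fintype.card_fin, ← hM, ← hΓ]
        ring
      rw [e2]
      apply Finset.sum_le_sum
      intro b _
      apply Finset.sum_le_sum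
      intro γ _
      apply Finset.sum_le_sum
      intro x _
      apply hyes
      intro b'
      unfold base1
      by_cases h : b'.val < b.val + 1
      · rw [if_pos h]; right; exact ⟨_, rfl⟩
      · rw [if_neg h]; left; rfl
    have h3 : ∑ ω, p ω * (∑ b : Fin m, ∑ γ : Fin m → X, ∑ x : X,
        (if (C ω).eval (enc spec (base1 a (b.val + 1) (Function.update γ b x))) = true then (1 : ℝ) else 0) -
        (κ : ℝ) * (M * Γ)) ≤ S :=
      Finset.sum_le_sum (fun ω _ => mul_le_mul_of_nonneg_left (h1 ω) (hp ω))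
    have h4 : ∑ ω, p ω * (∑ b : Fin m, ∑ γ : Fin m → X, ∑ x : X,
        (if (C ω).eval (enc spec (base1 a (b.val + 1) (Function.update γ b x))) = true then (1 : ℝ) else 0) -
        (κ : ℝ) * (M * Γ)) = ∑ ω, p ω * ∑ b : Fin m, ∑ γ : Fin m → X, ∑ x : X,
        (if (C ω).eval (enc spec (base1 a (b.val + 1) (Function.update γ b x))) = true then (1 : ℝ) else 0) -
        (κ : ℝ) * (M * Γ) := by
      simp only [mul_sub, Finset.sum_sub_distrib]
      rw [← Finset.sum_mul, hp1, one_mul]
    linarith
  have hfin : (s - (κ : ℝ) / m) * Γ * (m * M) = s * (m * (M * Γ)) - (κ : ℝ) * (M * Γ) := by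
    field_simp
  rw [hfin] at hlt
  linarith

end

/-- The main bound, with the number `κ` of alternations, and pyramids of height `H ≥ 2 D`. -/
theorem pyr_boundD (n D H m : ℕ) (hn : n < 2 ^ (D + 1)) (hh : 2 * D ≤ H) (hmn : m ≤ n) (t κ : ℕ)
    (ht2 : t < 2 ^ (D + 1)) (Ω : Type) [Fintype Ω]
    (p : Ω → ℝ) (C : Ω → Circuit (Bits m H)) (hp : ∀ ω, 0 ≤ p ω) (hp1 : ∑ ω, p ω = 1)
    (ht : ∀ ω, (C ω).numNot ≤ t) (hκ : ∀ ω, Alternates (C ω) κ)
    (hD : ∀ ω, (C ω).depth (C ω).out ≤ D)
    (hsound : ∀ ω x, (C ω).eval x = true → AllTops m H x) :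
    ∃ x, AllTops m H x ∧ m * accProb p C x ≤ κ + 1 := by
  classical
  by_contra hcon
  push Not at hcon
  have hle1 : ∀ x, accProb p C x ≤ 1 := by
    intro x
    unfold accProb
    rw [← hp1]
    apply Finset.sum_le_sum
    intro ω _
    split_ifs
    · exact le_rfl
    · exact hp ω
  have hmt : (κ : ℝ) + 1 < m := by
    have h1 := hcon (fun _ => true) (fun _ => top_true H)
    have h2 : (m : ℝ) * accProb p C (fun _ => true) ≤ m * 1 :=
      mul_le_mul_of_nonneg_left (hle1 _) (Nat.cast_nonneg m)
    linarith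
  have hm0 : (0 : ℝ) < m := by
    have : (0 : ℝ) ≤ κ := Nat.cast_nonneg κ
    linarith
  have hm : 0 < m := by exact_mod_cast hm0
  have hq : 0 < vals H := by unfold vals; positivity
  have : NeZero (vals H) := ⟨hq.ne'⟩
  let spec : Bits m H → Bool ⊕ (Fin m × Var H (vals H)) := Sum.inr
  have henc : ∀ z : Fin m → Var H (vals H) → Bool, enc spec z = fun q => z q.1 q.2 := fun z => rfl
  have hacc : ∀ x, accProb p C x = ∑ ω, p ω * (if (C ω).eval x = true then 1 else 0) := by
    intro x
    unfold accProb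
    apply Finset.sum_congr rfl
    intro ω _
    split_ifs <;> ring
  obtain ⟨ω, b, γ, F, hF1, hF2, hF3⟩ := chain1D (X := PV H → Fin (vals H)) (s := (κ + 1) / m) hm al spec
    p hp hp1 C ht hκ hD (by
      intro z hz
      rw [← hacc, div_le_iff₀ hm0, mul_comm]
      apply (hcon _ _).le
      intro i
      rw [henc]
      rcases hz i with h | ⟨x, h⟩
      · show Top (fun v => z i v)
        rw [h]
        exact top_true H
      · show Top (fun v => z i v)
        rw [h]
        exact al_top x)
  have hrob := robust H (vals H) rfl (mf_md F) (fun x => F.eval (al x)) (fun x hx => hx) (by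
    intro y
    by_contra h
    rw [Bool.not_eq_false] at h
    have h1 := hsound ω _ (hF3 (be y) h) b
    rw [henc] at h1
    have h2 : (fun v => Function.update (base1 al b.val γ) b (be y) b v) = be y := by
      rw [Function.update_self]
    exact be_top y (h2 ▸ h1))
  have hN0 : (0 : ℝ) < Fintype.card (PV H → Fin (vals H)) := by exact_mod_cast Fintype.card_pos
  have hfr : (1 : ℝ) / m * Fintype.card (PV H → Fin (vals H)) ≤
      ((univ.filter (fun x => F.eval (al x) = true)).card : ℝ) := by
    refine le_trans (le_of_eq ?_) hF2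
    congr 1
    field_simp
    ring
  have hrob' : ((univ.filter (fun x => F.eval (al x) = true)).card : ℝ) *
      (4 ^ (H + 1) * ((H : ℝ) + 1) ^ 2) ≤ 2 ^ F.depth * Fintype.card (PV H → Fin (vals H)) := by
    exact_mod_cast hrob
  have h1 : (1 : ℝ) / m * (4 ^ (H + 1) * ((H : ℝ) + 1) ^ 2) ≤ 2 ^ F.depth := by
    have h2 : (1 : ℝ) / m * Fintype.card (PV H → Fin (vals H)) * (4 ^ (H + 1) * ((H : ℝ) + 1) ^ 2) ≤
        2 ^ F.depth * Fintype.card (PV H → Fin (vals H)) :=
      (mul_le_mul_of_nonneg_right hfr (by positivity)).trans hrob'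
    have h3 : (1 : ℝ) / m * Fintype.card (PV H → Fin (vals H)) * (4 ^ (H + 1) * ((H : ℝ) + 1) ^ 2) =
        (1 : ℝ) / m * (4 ^ (H + 1) * ((H : ℝ) + 1) ^ 2) * Fintype.card (PV H → Fin (vals H)) := by ring
    rw [h3] at h2
    exact le_of_mul_le_mul_right h2 hN0
  have h2 : (4 : ℝ) ^ (H + 1) * ((H : ℝ) + 1) ^ 2 ≤ m * 2 ^ F.depth := by
    rw [div_mul_eq_mul_div, one_mul, div_le_iff₀ hm0] at h1
    linarith
  -- the depth of the formula
  have h3 : F.depth ≤ 2 * D + 1 := by
    have e2 : Nat.clog 2 (t + 1) ≤ D + 1 := by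
      apply (Nat.clog_le_iff_le_pow (by norm_num)).2
      omega
    omega
  have h4 : m * 2 ^ F.depth < 2 ^ (D + 1) * 2 ^ (2 * D + 1) :=
    Nat.mul_lt_mul_of_lt_of_le (lt_of_le_of_lt hmn hn)
      (Nat.pow_le_pow_right (by norm_num) h3) (by positivity)
  have h5 : (2 : ℕ) ^ (D + 1) * 2 ^ (2 * D + 1) ≤ 4 ^ (H + 1) := by
    have e4 : (4 : ℕ) ^ (H + 1) = 2 ^ (2 * (H + 1)) := by rw [pow_mul]; norm_num
    rw [← pow_add, e4]
    exact Nat.pow_le_pow_right (by norm_num) (by omega)
  have h6 : (4 : ℕ) ^ (H + 1) ≤ 4 ^ (H + 1) * (H + 1) ^ 2 := Nat.le_mul_of_pos_right _ (by positivity)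
  have h7 : m * 2 ^ F.depth < 4 ^ (H + 1) * (H + 1) ^ 2 := lt_of_lt_of_le h4 (h5.trans h6)
  have h8 : (m : ℝ) * 2 ^ F.depth < 4 ^ (H + 1) * ((H : ℝ) + 1) ^ 2 := by exact_mod_cast h7
  linarith

end Pool.Agent.W2helper22.AL
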