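import Pool.Agent.W2helper76.SZ.Main
import Pool.Agent.W2helper22.AL.Bool

/-! Perfect matching: size against the number of alternations. The proofs are those of
`Pool.Agent.W2helper76.SZ` (`chain`, `pm_size`, `size_bound`), with the number of alternations in
place of `2 ^ t`. -/

set_option autoImplicit false
set_option linter.unusedSectionVars false

open Finset

namespace Pool.Agent.W2helper22.AL

open Pool.Agent.W2helper76.SZ
open Pool.Agent.W2helper76.RW (Circuit enc phi inpt_enc enc_mono resample DecidesPM accProb Bipartite)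
open Pool.Agent.H560R2 (RProg BlockHard pgr mem_pgr)
open Pool.Agent.W2lead.PM (graph HasPM graph_adj hasPM_of_invol)

section

variable {I W P N : Type} {m : ℕ} [Fintype P] [Nonempty P] [Fintype N] [Nonempty N]

open Classical in
/-- The chain argument on average, for one circuit. -/
theorem chainS {S : ℕ} {ε : ℝ} {sp : P → Finset W} {sn : N → Finset W} (hA : BlockHard S ε sp sn)
    (spec : I → Bool ⊕ (Fin m × W)) (C : Circuit I) {κ : ℕ} (hκ : Alternates C κ)
    (hS : size C + C.numNot ≤ S) :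
    (∑ b : Fin m, ∑ γ : Fin m → P, ind C (enc spec (base sp (b.val + 1) γ))) * Fintype.card N ≤
      (∑ b : Fin m, ∑ γ : Fin m → P, ∑ ω : N,
        ind C (enc spec (Function.update (base sp b.val γ) b (chr (sn ω : Set W))))) +
      ((κ : ℝ) + m * ε) * (Fintype.card (Fin m → P) * Fintype.card N) := by
  set Np : ℝ := (Fintype.card N : ℝ) with hN
  set Pp : ℝ := (Fintype.card P : ℝ) with hP
  set M : ℝ := (Fintype.card (Fin m → P) : ℝ) with hM
  have hNpos : 0 < Np := by rw [hN]; exact_mod_cast Fintype.card_pos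
  have hPpos : 0 < Pp := by rw [hP]; exact_mod_cast Fintype.card_pos
  let ch : Fin m → (Fin m → P) → ℝ := fun b γ =>
    if C.Changed (C.depth C.out) (enc spec (base sp (b.val + 1) γ)) (enc spec (base sp b.val γ))
      then (1 : ℝ) else 0
  let no : Fin m → (Fin m → P) → ℝ := fun b γ => ∑ ω : N,
    ind C (enc spec (Function.update (base sp b.val γ) b (chr (sn ω : Set W))))
  -- one window
  have hwin : ∀ (b : Fin m) (γ : Fin m → P),
      (∑ g : P, (ind C (enc spec (base sp (b.val + 1) (Function.update γ b g))) -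
        ch b (Function.update γ b g))) * Np ≤ no b γ * Pp + ε * (Pp * Np) := by
    intro b γ
    obtain ⟨L, G, hL, hlen, hG, hG2, hG3⟩ := window C (phi spec b) (enc spec (base sp b.val γ))
    have h1 := hA (Leaves W) (fun b hb => hb) L hL (hlen.trans hS) (rf G) hG 1
    have hrf : ∀ X : Set W, (1 : ℝ) ≤ rf G X ↔ G.eval (chr X) = true := by
      intro X
      unfold rf
      split_ifs with h
      · simp [h]
      · simp [h]
    simp only [hrf] at h1
    rw [div_le_iff₀ hPpos] at h1
    have h2 : ((univ.filter (fun p : P => G.eval (chr (sp p : Set W)) = true)).card : ℝ) * Np ≤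
        ((univ.filter (fun n : N => G.eval (chr (sn n : Set W)) = true)).card : ℝ) * Pp +
          ε * (Pp * Np) := by
      calc _ ≤ ((((univ.filter (fun n : N => G.eval (chr (sn n : Set W)) = true)).card : ℝ) / Np + ε) *
            Pp) * Np := mul_le_mul_of_nonneg_right h1 hNpos.le
        _ = _ := by field_simp
    have h3 : ∑ g : P, (ind C (enc spec (base sp (b.val + 1) (Function.update γ b g))) -
        ch b (Function.update γ b g)) ≤
        ((univ.filter (fun p : P => G.eval (chr (sp p : Set W)) = true)).card : ℝ) := by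
      rw [← Finset.sum_boole]
      apply Finset.sum_le_sum
      intro g _
      have h := hG2 (chr (sp g : Set W))
      rw [inpt_enc, inpt_enc, base_update_act, base_update_true sp b γ g] at h
      simp only [ch, ind]
      by_cases h1 : C.Changed (C.depth C.out)
          (enc spec (base sp (b.val + 1) (Function.update γ b g)))
          (enc spec (base sp b.val (Function.update γ b g)))
      · rw [if_pos h1]
        have e1 : (if C.eval (enc spec (base sp (b.val + 1) (Function.update γ b g))) = true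
          then (1 : ℝ) else 0) ≤ 1 := by split_ifs <;> norm_num
        have e2 : (0 : ℝ) ≤ if G.eval (chr (sp g : Set W)) = true then 1 else 0 := by
          split_ifs <;> norm_num
        linarith
      · rw [if_neg h1, sub_zero]
        by_cases h2 : C.eval (enc spec (base sp (b.val + 1) (Function.update γ b g))) = true
        · rw [if_pos h2, if_pos (h h1 h2)]
        · rw [if_neg h2]
          split_ifs <;> norm_num
    have h4 : ((univ.filter (fun n : N => G.eval (chr (sn n : Set W)) = true)).card : ℝ) ≤ no b γ := by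
      rw [← Finset.sum_boole]
      apply Finset.sum_le_sum
      intro ω _
      have h := hG3 (chr (sn ω : Set W))
      rw [inpt_enc] at h
      simp only [ind]
      by_cases h2 : G.eval (chr (sn ω : Set W)) = true
      · rw [if_pos h2, if_pos (h h2)]
      · rw [if_neg h2]
        split_ifs <;> norm_num
    calc _ ≤ _ := mul_le_mul_of_nonneg_right h3 hNpos.le
      _ ≤ _ := h2
      _ ≤ _ := by
          have := mul_le_mul_of_nonneg_right h4 hPpos.le
          linarith
  have hsum : ∀ b : Fin m, (∑ γ : Fin m → P, (ind C (enc spec (base sp (b.val + 1) γ)) - ch b γ)) * Np ≤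
      (∑ γ : Fin m → P, no b γ) + ε * (M * Np) := by
    intro b
    have h1 : (∑ γ : Fin m → P, ∑ g : P,
        (ind C (enc spec (base sp (b.val + 1) (Function.update γ b g))) -
        ch b (Function.update γ b g))) * Np ≤ (∑ γ : Fin m → P, no b γ) * Pp + ε * (Pp * Np) * M := by
      rw [Finset.sum_mul]
      refine (Finset.sum_le_sum (fun γ _ => hwin b γ)).trans (le_of_eq ?_)
      rw [Finset.sum_add_distrib, ← Finset.sum_mul, Finset.sum_const, Finset.card_univ, nsmul_eq_mul]
      ring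
    have h2 := resample b (fun γ => ind C (enc spec (base sp (b.val + 1) γ)) - ch b γ)
    rw [h2] at h1
    refine le_of_mul_le_mul_right ?_ hPpos
    calc _ = (Pp * ∑ γ : Fin m → P, (ind C (enc spec (base sp (b.val + 1) γ)) - ch b γ)) * Np := by
          ring
      _ ≤ _ := h1
      _ = _ := by ring
  have hch : ∑ b : Fin m, ∑ γ : Fin m → P, ch b γ ≤ M * (κ : ℝ) := by
    rw [Finset.sum_comm]
    have h1 : ∑ γ : Fin m → P, ∑ b : Fin m, ch b γ ≤ ∑ γ : Fin m → P, (κ : ℝ) :=
      Finset.sum_le_sum (fun γ _ => count_le hκ _ m (fun b => enc spec (base sp b γ))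
        (fun b p => enc_mono spec _ _ (base_anti sp b γ) p))
    rwa [Finset.sum_const, Finset.card_univ, nsmul_eq_mul, ← hM] at h1
  have hall := Finset.sum_le_sum (fun b (_ : b ∈ (univ : Finset (Fin m))) => hsum b)
  rw [← Finset.sum_mul, Finset.sum_add_distrib] at hall
  simp only [Finset.sum_sub_distrib] at hall
  rw [Finset.sum_const, Finset.card_univ, Fintype.card_fin, nsmul_eq_mul] at hall
  have h5 := mul_le_mul_of_nonneg_right hch hNpos.le
  simp only [no] at hall
  nlinarith

end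

open Classical in
/-- The main inequality. -/
theorem pm_sizeD {δ : ℝ} {n m k q w lam κ : ℕ} (hn : m * k + q = n) (hm : 0 < m) (hw : 1 ≤ w)
    (hk : k < 2 ^ lam) (hbig : 2 ^ 59 * (lam + 1) ^ 8 * w ^ 8 ≤ k)
    (Ω : Type) [Fintype Ω] (p : Ω → ℝ) (C : Ω → Circuit (Sym2 (Fin n ⊕ Fin n)))
    (hdec : DecidesPM δ p C) (ht : ∀ ω, Alternates (C ω) κ)
    (hS : ∀ ω, size (C ω) + (C ω).numNot ≤ 2 ^ w) : δ ≤ (κ : ℝ) / m + 1 / w := by
  obtain ⟨hp, hp1, θ, hyes, hno⟩ := hdec
  obtain ⟨e, he1, he2, he3, he4⟩ := exists_placement hn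
  have hbip := bip_place e he1 he2 he3 he4
  obtain ⟨Ng, hNg, hNgne, sn, hsn, hA⟩ := Pool.Agent.W2helper58.match_avg (n := k) w lam hw hk hbig
  have hacc : ∀ x, accProb p C x = ∑ ω, p ω * ind (C ω) x := by
    intro x
    unfold accProb ind
    apply Finset.sum_congr rfl
    intro ω _
    split_ifs <;> simp
  set P := Equiv.Perm (Fin k) with hP
  set M : ℝ := (Fintype.card (Fin m → P) : ℝ) with hM
  set Np : ℝ := (Fintype.card Ng : ℝ) with hNp
  have hM0 : 0 < M := by rw [hM]; exact_mod_cast Fintype.card_pos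
  have hN0 : 0 < Np := by rw [hNp]; exact_mod_cast Fintype.card_pos
  have hm0 : (0 : ℝ) < m := by exact_mod_cast hm
  have hch : ∀ ω, _ := fun ω => chainS (m := m) hA (gsp e) (C ω) (ht ω) (hS ω)
  -- the average over the circuits
  have h1 : ∑ ω, p ω * ((∑ b : Fin m, ∑ γ : Fin m → P,
      ind (C ω) (enc (gsp e) (base (pgr (n := k)) (b.val + 1) γ))) * Np) ≤
      ∑ ω, p ω * ((∑ b : Fin m, ∑ γ : Fin m → P, ∑ η : Ng,
        ind (C ω) (enc (gsp e) (Function.update (base (pgr (n := k)) b.val γ) b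
          (chr (sn η : Set (Fin k × Fin k)))))) + ((κ : ℝ) + m * (1 / w)) * (M * Np)) :=
    Finset.sum_le_sum (fun ω _ => mul_le_mul_of_nonneg_left (hch ω) (hp ω))
  have hY : (θ + δ) * (m * M * Np) ≤ ∑ ω, p ω * ((∑ b : Fin m, ∑ γ : Fin m → P,
      ind (C ω) (enc (gsp e) (base (pgr (n := k)) (b.val + 1) γ))) * Np) := by
    have e1 : ∑ ω, p ω * ((∑ b : Fin m, ∑ γ : Fin m → P,
        ind (C ω) (enc (gsp e) (base (pgr (n := k)) (b.val + 1) γ))) * Np) =
        (∑ b : Fin m, ∑ γ : Fin m → P, ∑ ω, p ω *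
        ind (C ω) (enc (gsp e) (base (pgr (n := k)) (b.val + 1) γ))) * Np := by
      have e0 : ∀ ω, p ω * ((∑ b : Fin m, ∑ γ : Fin m → P,
        ind (C ω) (enc (gsp e) (base (pgr (n := k)) (b.val + 1) γ))) * Np) =
        (p ω * (∑ b : Fin m, ∑ γ : Fin m → P,
        ind (C ω) (enc (gsp e) (base (pgr (n := k)) (b.val + 1) γ)))) * Np := fun ω => by ring
      rw [Finset.sum_congr rfl (fun ω _ => e0 ω), ← Finset.sum_mul]
      congr 1
      simp only [Finset.mul_sum]
      rw [Finset.sum_comm]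
      apply Finset.sum_congr rfl
      intro b _
      rw [Finset.sum_comm]
    rw [e1]
    have e2 : (θ + δ) * (m * M * Np) = (∑ b : Fin m, ∑ γ : Fin m → P, (θ + δ)) * Np := by
      simp only [Finset.sum_const, Finset.card_univ, nsmul_eq_mul, Fintype.card_fin, ← hM]
      ring
    rw [e2]
    apply mul_le_mul_of_nonneg_right _ hN0.le
    apply Finset.sum_le_sum
    intro b _
    apply Finset.sum_le_sum
    intro γ _
    rw [← hacc]
    exact hyes _ (hbip _) (yes_inst e γ _)
  have hNo : ∑ ω, p ω * ((∑ b : Fin m, ∑ γ : Fin m → P, ∑ η : Ng,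
        ind (C ω) (enc (gsp e) (Function.update (base (pgr (n := k)) b.val γ) b
          (chr (sn η : Set (Fin k × Fin k)))))) + ((κ : ℝ) + m * (1 / w)) * (M * Np)) ≤
      θ * (m * M * Np) + ((κ : ℝ) + m * (1 / w)) * (M * Np) := by
    have e0 : ∑ ω, p ω * ((∑ b : Fin m, ∑ γ : Fin m → P, ∑ η : Ng,
        ind (C ω) (enc (gsp e) (Function.update (base (pgr (n := k)) b.val γ) b
          (chr (sn η : Set (Fin k × Fin k)))))) + ((κ : ℝ) + m * (1 / w)) * (M * Np)) =
        ∑ ω, p ω * (∑ b : Fin m, ∑ γ : Fin m → P, ∑ η : Ng,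
        ind (C ω) (enc (gsp e) (Function.update (base (pgr (n := k)) b.val γ) b
          (chr (sn η : Set (Fin k × Fin k)))))) + ((κ : ℝ) + m * (1 / w)) * (M * Np) := by
      have e00 : ∀ ω, p ω * ((∑ b : Fin m, ∑ γ : Fin m → P, ∑ η : Ng,
        ind (C ω) (enc (gsp e) (Function.update (base (pgr (n := k)) b.val γ) b
          (chr (sn η : Set (Fin k × Fin k)))))) + ((κ : ℝ) + m * (1 / w)) * (M * Np)) =
        p ω * (∑ b : Fin m, ∑ γ : Fin m → P, ∑ η : Ng,
        ind (C ω) (enc (gsp e) (Function.update (base (pgr (n := k)) b.val γ) b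
          (chr (sn η : Set (Fin k × Fin k)))))) + p ω * (((κ : ℝ) + m * (1 / w)) * (M * Np)) :=
        fun ω => mul_add _ _ _
      rw [Finset.sum_congr rfl (fun ω _ => e00 ω), Finset.sum_add_distrib, ← Finset.sum_mul, hp1,
        one_mul]
    rw [e0]
    apply add_le_add_left
    have e1 : ∑ ω, p ω * (∑ b : Fin m, ∑ γ : Fin m → P, ∑ η : Ng,
        ind (C ω) (enc (gsp e) (Function.update (base (pgr (n := k)) b.val γ) b
          (chr (sn η : Set (Fin k × Fin k)))))) =
        ∑ b : Fin m, ∑ γ : Fin m → P, ∑ η : Ng, ∑ ω, p ω *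
        ind (C ω) (enc (gsp e) (Function.update (base (pgr (n := k)) b.val γ) b
          (chr (sn η : Set (Fin k × Fin k))))) := by
      simp only [Finset.mul_sum]
      rw [Finset.sum_comm]
      apply Finset.sum_congr rfl
      intro b _
      rw [Finset.sum_comm]
      apply Finset.sum_congr rfl
      intro γ _
      rw [Finset.sum_comm]
    rw [e1]
    have e2 : θ * (m * M * Np) = ∑ b : Fin m, ∑ γ : Fin m → P, ∑ η : Ng, θ := by
      simp only [Finset.sum_const, Finset.card_univ, nsmul_eq_mul, Fintype.card_fin, ← hM, ← hNp]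
      ring
    rw [e2]
    apply Finset.sum_le_sum
    intro b _
    apply Finset.sum_le_sum
    intro γ _
    apply Finset.sum_le_sum
    intro η _
    rw [← hacc]
    exact hno _ (hbip _) (no_inst e γ b (sn η) (hsn η))
  have h2 := hY.trans (h1.trans hNo)
  have h3 : δ * m * (M * Np) ≤ ((κ : ℝ) + m * (1 / w)) * (M * Np) := by
    have : (θ + δ) * (m * M * Np) = θ * (m * M * Np) + δ * m * (M * Np) := by ring
    linarith
  have h4 : δ * m ≤ (κ : ℝ) + m * (1 / w) := le_of_mul_le_mul_right h3 (by positivity)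
  have h5 : ((κ : ℝ) / m + 1 / w : ℝ) = ((κ : ℝ) + m * (1 / w)) / m := by field_simp
  rw [h5, le_div_iff₀ hm0]
  exact h4

theorem size_boundD {δ : ℝ} (hδ : 0 < δ) : ∃ c : ℝ, 0 < c ∧ ∀ (n κ w : ℕ) (_ : 1 ≤ w)
    (Ω : Type) [Fintype Ω] (p : Ω → ℝ) (C : Ω → Circuit (Sym2 (Fin n ⊕ Fin n))),
    DecidesPM δ p C → 1 ≤ κ → (∀ ω, Alternates (C ω) κ) → (∀ ω, size (C ω) ≤ 2 ^ w) →
    c * n ≤ (κ : ℝ) * (w * Real.logb 2 (n + 2)) ^ 8 := by
  classical
  obtain ⟨K, hK⟩ : ∃ K : ℕ, K = 2 + ⌈2 / δ⌉₊ := ⟨_, rfl⟩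
  have hK2 : 2 ≤ K := by omega
  have hKδ : 2 / δ ≤ (K : ℝ) := by
    have h1 := Nat.le_ceil (2 / δ)
    rw [hK]
    push_cast
    linarith
  obtain ⟨A, hA⟩ : ∃ A : ℝ, A = 4 / δ + 1 := ⟨_, rfl⟩
  have hA0 : 0 < A := by rw [hA]; positivity
  have hA1 : 1 ≤ A := by rw [hA]; have : 0 < 4 / δ := by positivity
                         linarith
  have hK0 : (0 : ℝ) < K := by
    have : 0 < K := by omega
    exact_mod_cast this
  refine ⟨1 / (A * 2 ^ 59 * (3 * K) ^ 8), by positivity, ?_⟩
  intro n κ w hw Ω _ p C hdec hκ1 ht hs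
  obtain ⟨W, hW⟩ : ∃ W, W = K * w := ⟨_, rfl⟩
  obtain ⟨lam, hlam⟩ : ∃ lam, lam = Nat.log 2 n + 1 := ⟨_, rfl⟩
  obtain ⟨k, hk⟩ : ∃ k, k = 2 ^ 59 * (lam + 1) ^ 8 * W ^ 8 := ⟨_, rfl⟩
  have hWw : w + 1 ≤ W := by rw [hW]; nlinarith
  have hW1 : 1 ≤ W := by omega
  have hkpos : 0 < k := by rw [hk]; positivity
  have hkR : (0 : ℝ) < k := by exact_mod_cast hkpos
  have hT : (1 : ℝ) ≤ (κ : ℝ) := by exact_mod_cast hκ1
  have hmain : (n : ℝ) ≤ A * (κ : ℝ) * k := by
    rcases Nat.lt_or_ge n k with hnk | hnk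
    · have h1 : (n : ℝ) ≤ k := by exact_mod_cast hnk.le
      have h2 : (1 : ℝ) ≤ A * (κ : ℝ) := one_le_mul_of_one_le_of_one_le hA1 hT
      calc (n : ℝ) ≤ 1 * k := by rw [one_mul]; exact h1
        _ ≤ A * (κ : ℝ) * k := mul_le_mul_of_nonneg_right h2 hkR.le
    · obtain ⟨m, hm⟩ : ∃ m, m = n / k := ⟨_, rfl⟩
      have hm0 : 0 < m := by rw [hm]; exact Nat.div_pos hnk hkpos
      obtain ⟨q, hq⟩ : ∃ q, m * k + q = n := ⟨n - m * k, by
        have : m * k ≤ n := by rw [hm]; exact Nat.div_mul_le_self n k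
        omega⟩
      have hklt : k < 2 ^ lam := by
        refine lt_of_le_of_lt hnk ?_
        rw [hlam]
        exact Nat.lt_pow_succ_log_self (by norm_num) n
      have hS : ∀ ω, size (C ω) + (C ω).numNot ≤ 2 ^ W := by
        intro ω
        have h1 := numNot_le (C ω)
        have h2 := hs ω
        calc size (C ω) + (C ω).numNot ≤ 2 ^ w + 2 ^ w := by omega
          _ = 2 ^ (w + 1) := by rw [pow_succ]; ring
          _ ≤ 2 ^ W := Nat.pow_le_pow_right (by norm_num) hWw
      have h1 := pm_sizeD hq hm0 hW1 hklt (by rw [hk]) Ω p C hdec ht hS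
      have hWδ : 1 / (W : ℝ) ≤ δ / 2 := by
        have hW0 : (0 : ℝ) < W := by exact_mod_cast hW1
        rw [div_le_div_iff₀ hW0 (by norm_num)]
        have h3 : (K : ℝ) ≤ W := by
          rw [hW]
          have : K ≤ K * w := Nat.le_mul_of_pos_right _ hw
          exact_mod_cast this
        have h4 : 2 / δ ≤ (W : ℝ) := hKδ.trans h3
        rw [div_le_iff₀ hδ] at h4
        linarith
      have hmR : (0 : ℝ) < m := by exact_mod_cast hm0
      have h2 : δ / 2 ≤ (κ : ℝ) / m := by linarith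
      rw [le_div_iff₀ hmR] at h2
      have h3 : (m : ℝ) ≤ 2 / δ * (κ : ℝ) := by
        rw [div_mul_eq_mul_div, le_div_iff₀ hδ]
        linarith
      have h4 : n < (m + 1) * k := by
        rw [hm]
        exact Nat.lt_mul_of_div_lt (Nat.lt_succ_self _) hkpos
      have h5 : (n : ℝ) ≤ 2 * m * k := by
        have h6 : (m + 1) * k ≤ 2 * m * k := Nat.mul_le_mul_right _ (by omega)
        have h7 : n ≤ 2 * m * k := h4.le.trans h6
        exact_mod_cast h7
      calc (n : ℝ) ≤ 2 * m * k := h5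
        _ ≤ 2 * (2 / δ * (κ : ℝ)) * k := by gcongr
        _ = 4 / δ * (κ : ℝ) * k := by ring
        _ ≤ A * (κ : ℝ) * k := by
            rw [hA]
            gcongr
            linarith
  have hk2 : (k : ℝ) ≤ 2 ^ 59 * (3 * K) ^ 8 * (w * Real.logb 2 (n + 2)) ^ 8 := by
    have h1 : ((lam + 1 : ℕ) : ℝ) ≤ 3 * Real.logb 2 (n + 2) := by
      rw [hlam]
      exact log_le n
    have h2 : (k : ℝ) = 2 ^ 59 * ((lam + 1 : ℕ) : ℝ) ^ 8 * (K * w) ^ 8 := by
      rw [hk, hW]
      push_cast
      ring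
    rw [h2]
    calc (2 : ℝ) ^ 59 * ((lam + 1 : ℕ) : ℝ) ^ 8 * (K * w) ^ 8 ≤
        2 ^ 59 * (3 * Real.logb 2 (n + 2)) ^ 8 * (K * w) ^ 8 := by gcongr
      _ = _ := by ring
  rw [div_mul_eq_mul_div, one_mul, div_le_iff₀ (by positivity)]
  calc (n : ℝ) ≤ A * (κ : ℝ) * k := hmain
    _ ≤ A * (κ : ℝ) * (2 ^ 59 * (3 * K) ^ 8 * (w * Real.logb 2 (n + 2)) ^ 8) := by gcongr
    _ = _ := by ring

end Pool.Agent.W2helper22.AL
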