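import Pool.Agent.W2helper22.AL.Bool
import Pool.Agent.W2helper76.SZ.Window

/-!
Project AL, upper bound: every Boolean circuit can be rewritten with few NOT gates in few nesting levels.
Straight-line programs with levels, and the statements of the pieces.
-/

set_option autoImplicit false

namespace Pool.Agent.W2helper22.AL

open Finset Pool.Agent.W2helper76.RW

/-- Straight-line programs: `Prog L c` says that the list `L` (last function first) of Boolean functions
of the inputs, each with a level, can be computed one after the other with input, constant, AND, OR and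
NOT gates; the levels do not decrease from the arguments to the gate, they increase at a NOT gate, and
there are `c l` NOT gates of level `l`. -/
inductive Prog {I : Type} : List (((I → Bool) → Bool) × ℕ) → (ℕ → ℕ) → Prop
  | nil : Prog [] (fun _ => 0)
  | inp {L : List (((I → Bool) → Bool) × ℕ)} {c : ℕ → ℕ} (p : I) (l : ℕ) :
      Prog L c → Prog ((fun x => x p, l) :: L) c
  | const {L : List (((I → Bool) → Bool) × ℕ)} {c : ℕ → ℕ} (b : Bool) (l : ℕ) :
      Prog L c → Prog ((fun _ => b, l) :: L) c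
  | and {L : List (((I → Bool) → Bool) × ℕ)} {c : ℕ → ℕ} {f g : (I → Bool) → Bool} {i j : ℕ} (l : ℕ) :
      Prog L c → (f, i) ∈ L → (g, j) ∈ L → i ≤ l → j ≤ l → Prog ((fun x => f x && g x, l) :: L) c
  | or {L : List (((I → Bool) → Bool) × ℕ)} {c : ℕ → ℕ} {f g : (I → Bool) → Bool} {i j : ℕ} (l : ℕ) :
      Prog L c → (f, i) ∈ L → (g, j) ∈ L → i ≤ l → j ≤ l → Prog ((fun x => f x || g x, l) :: L) c
  | not {L : List (((I → Bool) → Bool) × ℕ)} {c : ℕ → ℕ} {f : (I → Bool) → Bool} {i : ℕ} (l : ℕ) :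
      Prog L c → (f, i) ∈ L → i < l → Prog ((fun x => !(f x), l) :: L) (Function.update c l (c l + 1))

/-- With `s` gates of levels at most `h`, and `c l` NOT gates of level `l`, one can compute all
functions `q.1`, `q ∈ F`, each at a level at most `q.2`. -/
def Av {I : Type} (h s : ℕ) (c : ℕ → ℕ) (F : Set (((I → Bool) → Bool) × ℕ)) : Prop :=
  ∃ (L : List (((I → Bool) → Bool) × ℕ)) (c' : ℕ → ℕ), Prog L c' ∧ (∀ q ∈ L, q.2 ≤ h) ∧
    L.length ≤ s ∧ (∀ l, c' l ≤ c l) ∧ ∀ q ∈ F, ∃ i ≤ q.2, (q.1, i) ∈ L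

variable {I : Type} {h s : ℕ} {c : ℕ → ℕ} {F : Set (((I → Bool) → Bool) × ℕ)}

lemma Av.empty : Av (I := I) h 0 (fun _ => 0) ∅ :=
  ⟨[], fun _ => 0, Prog.nil, by simp, le_rfl, fun _ => le_rfl, by simp⟩

lemma Av.mono (hA : Av h s c F) {s' : ℕ} {c' : ℕ → ℕ} {F' : Set (((I → Bool) → Bool) × ℕ)}
    (hs : s ≤ s') (hc : ∀ l, c l ≤ c' l) (hF : ∀ q ∈ F', ∃ i ≤ q.2, (q.1, i) ∈ F) : Av h s' c' F' := by
  obtain ⟨L, c0, h1, h2, h3, h4, h5⟩ := hA
  refine ⟨L, c0, h1, h2, h3.trans hs, fun l => (h4 l).trans (hc l), fun q hq => ?_⟩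
  obtain ⟨i, hi, hiF⟩ := hF q hq
  obtain ⟨j, hj, hjL⟩ := h5 _ hiF
  exact ⟨j, hj.trans hi, hjL⟩

lemma Av.inp (hA : Av h s c F) (p : I) : Av h (s + 1) c (insert (fun x => x p, 0) F) := by
  obtain ⟨L, c0, h1, h2, h3, h4, h5⟩ := hA
  refine ⟨(fun x => x p, 0) :: L, c0, Prog.inp p 0 h1, ?_, by simpa using h3, h4, ?_⟩
  · intro q hq
    rcases List.mem_cons.mp hq with rfl | hq
    · exact Nat.zero_le _
    · exact h2 q hq
  · intro q hq
    rcases Set.mem_insert_iff.mp hq with rfl | hq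
    · exact ⟨0, le_rfl, List.mem_cons_self⟩
    · obtain ⟨i, hi, hiL⟩ := h5 q hq
      exact ⟨i, hi, List.mem_cons_of_mem _ hiL⟩

lemma Av.const (hA : Av h s c F) (b : Bool) : Av h (s + 1) c (insert (fun _ => b, 0) F) := by
  obtain ⟨L, c0, h1, h2, h3, h4, h5⟩ := hA
  refine ⟨(fun _ => b, 0) :: L, c0, Prog.const b 0 h1, ?_, by simpa using h3, h4, ?_⟩
  · intro q hq
    rcases List.mem_cons.mp hq with rfl | hq
    · exact Nat.zero_le _
    · exact h2 q hq
  · intro q hq
    rcases Set.mem_insert_iff.mp hq with rfl | hq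
    · exact ⟨0, le_rfl, List.mem_cons_self⟩
    · obtain ⟨i, hi, hiL⟩ := h5 q hq
      exact ⟨i, hi, List.mem_cons_of_mem _ hiL⟩

lemma Av.and (hA : Av h s c F) {f g : (I → Bool) → Bool} {l : ℕ} (hf : (f, l) ∈ F) (hg : (g, l) ∈ F)
    (hl : l ≤ h) : Av h (s + 1) c (insert (fun x => f x && g x, l) F) := by
  obtain ⟨L, c0, h1, h2, h3, h4, h5⟩ := hA
  obtain ⟨i, hi, hiL⟩ := h5 _ hf
  obtain ⟨j, hj, hjL⟩ := h5 _ hg
  refine ⟨(fun x => f x && g x, l) :: L, c0, Prog.and l h1 hiL hjL hi hj, ?_, by simpa using h3, h4, ?_⟩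
  · intro q hq
    rcases List.mem_cons.mp hq with rfl | hq
    · exact hl
    · exact h2 q hq
  · intro q hq
    rcases Set.mem_insert_iff.mp hq with rfl | hq
    · exact ⟨l, le_rfl, List.mem_cons_self⟩
    · obtain ⟨i, hi, hiL⟩ := h5 q hq
      exact ⟨i, hi, List.mem_cons_of_mem _ hiL⟩

lemma Av.or (hA : Av h s c F) {f g : (I → Bool) → Bool} {l : ℕ} (hf : (f, l) ∈ F) (hg : (g, l) ∈ F)
    (hl : l ≤ h) : Av h (s + 1) c (insert (fun x => f x || g x, l) F) := by
  obtain ⟨L, c0, h1, h2, h3, h4, h5⟩ := hA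
  obtain ⟨i, hi, hiL⟩ := h5 _ hf
  obtain ⟨j, hj, hjL⟩ := h5 _ hg
  refine ⟨(fun x => f x || g x, l) :: L, c0, Prog.or l h1 hiL hjL hi hj, ?_, by simpa using h3, h4, ?_⟩
  · intro q hq
    rcases List.mem_cons.mp hq with rfl | hq
    · exact hl
    · exact h2 q hq
  · intro q hq
    rcases Set.mem_insert_iff.mp hq with rfl | hq
    · exact ⟨l, le_rfl, List.mem_cons_self⟩
    · obtain ⟨i, hi, hiL⟩ := h5 q hq
      exact ⟨i, hi, List.mem_cons_of_mem _ hiL⟩

lemma Av.not (hA : Av h s c F) {f : (I → Bool) → Bool} {i l : ℕ} (hf : (f, i) ∈ F) (hil : i < l)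
    (hl : l ≤ h) :
    Av h (s + 1) (fun k => c k + if k = l then 1 else 0) (insert (fun x => !(f x), l) F) := by
  obtain ⟨L, c0, h1, h2, h3, h4, h5⟩ := hA
  obtain ⟨j, hj, hjL⟩ := h5 _ hf
  refine ⟨(fun x => !(f x), l) :: L, Function.update c0 l (c0 l + 1),
    Prog.not l h1 hjL (lt_of_le_of_lt hj hil), ?_, by simpa using h3, ?_, ?_⟩
  · intro q hq
    rcases List.mem_cons.mp hq with rfl | hq
    · exact hl
    · exact h2 q hq
  · intro k
    by_cases hk : k = l
    · subst hk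
      rw [Function.update_self]
      show c0 k + 1 ≤ c k + if k = k then 1 else 0
      rw [if_pos rfl]
      exact Nat.succ_le_succ (h4 k)
    · rw [Function.update_of_ne hk]
      show c0 k ≤ c k + if k = l then 1 else 0
      rw [if_neg hk, add_zero]
      exact h4 k
  · intro q hq
    rcases Set.mem_insert_iff.mp hq with rfl | hq
    · exact ⟨l, le_rfl, List.mem_cons_self⟩
    · obtain ⟨i, hi, hiL⟩ := h5 q hq
      exact ⟨i, hi, List.mem_cons_of_mem _ hiL⟩

/-- a finite family of functions is added one after the other, `r` gates for each -/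
lemma Av.family {r : ℕ} (G : ℕ → ((I → Bool) → Bool) × ℕ) (m : ℕ) (hA : Av h s c F)
    (hstep : ∀ (s' : ℕ) (F' : Set (((I → Bool) → Bool) × ℕ)) (j : ℕ), j < m → F ⊆ F' →
      (∀ i < j, G i ∈ F') → Av h s' c F' → Av h (s' + r) c (insert (G j) F')) :
    Av h (s + r * m) c (F ∪ {q | ∃ j < m, q = G j}) := by
  have key : ∀ k ≤ m, Av h (s + r * k) c (F ∪ {q | ∃ j < k, q = G j}) := by
    intro k
    induction k with
    | zero =>
      intro _
      exact hA.mono (by simp) (fun _ => le_rfl) (fun q hq => ⟨q.2, le_rfl, by simpa using hq⟩)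
    | succ k ih =>
      intro hk
      have h1 := hstep (s + r * k) (F ∪ {q | ∃ j < k, q = G j}) k (by omega) Set.subset_union_left
        (fun i hi => Or.inr ⟨i, hi, rfl⟩) (ih (by omega))
      refine h1.mono (by rw [Nat.mul_succ]; omega) (fun _ => le_rfl) (fun q hq => ⟨q.2, le_rfl, ?_⟩)
      rcases hq with hq | ⟨j, hj, rfl⟩
      · exact Or.inr (Or.inl hq)
      · rcases Nat.lt_succ_iff_lt_or_eq.mp hj with h2 | h2
        · exact Or.inr (Or.inr ⟨j, h2, rfl⟩)
        · exact Or.inl (by rw [h2])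
  exact key m le_rfl

/-- the number of true inputs in the list `l` is at least `k` -/
def thr (l : List I) (k : ℕ) : (I → Bool) → Bool := fun x => decide (k ≤ l.countP (fun p => x p))

/-- PIECE REAL: a program gives a circuit. -/
def S_REAL : Prop := ∀ (I : Type) (h : ℕ) (L : List (((I → Bool) → Bool) × ℕ)) (c : ℕ → ℕ)
  (f : (I → Bool) → Bool) (i : ℕ), Prog L c → (∀ q ∈ L, q.2 ≤ h) → (f, i) ∈ L →
  ∃ (C : Circuit I) (lev : Fin C.s → ℕ), (∀ x, C.eval x = f x) ∧ C.s = L.length ∧ Nesting C h lev ∧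
    ∀ l, {g : Fin C.s | C.IsNot g ∧ lev g = l}.ncard ≤ c l

/-- PIECE THR: threshold functions of a list of inputs, no NOT gates. -/
def S_THR : Prop := ∀ (I : Type) (h s : ℕ) (c : ℕ → ℕ) (F : Set (((I → Bool) → Bool) × ℕ))
  (l : List I), Av h s c F →
  Av h (s + (2 * (l.length + 2) + 2) * (l.length + 1)) c (F ∪ {q | ∃ k, q = (thr l k, 0)})

/-- PIECE NEG: the negations of the thresholds of a number `r x < M`, with `t (b + j)` NOT gates of
level `b + j + 1` for `j < n`, if `M ≤ ∏ (t (b + j) + 1)`. -/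
def S_NEG : Prop := ∀ (I : Type) (t : ℕ → ℕ) (n h b s M : ℕ) (c : ℕ → ℕ)
  (F : Set (((I → Bool) → Bool) × ℕ)) (r : (I → Bool) → ℕ), b + n ≤ h →
  (∀ x, r x < M) → M ≤ ∏ j ∈ range n, (t (b + j) + 1) →
  (∀ k, ((fun x => decide (k ≤ r x)), b) ∈ F) → Av h s c F →
  Av h (s + 8 * (M + 1 + ∑ j ∈ range n, t (b + j)) * (n + 1))
    (fun l => c l + if b < l ∧ l ≤ b + n then t (l - 1) else 0)
    (F ∪ {q | ∃ k, q = ((fun x => decide (r x < k)), b + n)})

/-- PIECE DUAL: simulation of a circuit, all inputs and negated inputs are given. -/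
def S_DUAL : Prop := ∀ (I : Type) (h s : ℕ) (c : ℕ → ℕ) (F : Set (((I → Bool) → Bool) × ℕ))
  (C : Circuit I), (∀ p, ((fun x => x p), h) ∈ F) → (∀ p, ((fun x => !(x p)), h) ∈ F) → Av h s c F →
  Av h (s + 2 * C.s) c (insert ((fun x => C.eval x), h) F)

end Pool.Agent.W2helper22.AL
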